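import Pool.Agent.Work.MP_f7ef37_lc.HL.Stmts

/-!
# Block HL: assembly from the statements of the items
-/

set_option autoImplicit false

open Finset

namespace Pool.Agent.Work.MP_f7ef37_lc.HL

open Pool.Agent.Work.MP_f7ef37_lc.Up

/-- The parametric theorem. -/
theorem param (hTot : S_Tot) (hDt : S_Dt) (hNm : S_Nm) (m n L t N S j : ℕ) (ht : 1 ≤ t)
    (hn : 2 ≤ n) (hL : 1 ≤ L) (hm : n ^ L ≤ m) (hk : 2 ^ (N + j) ≤ m) (hS : 2 * S < 2 ^ j)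
    (hn2 : n ≤ L ^ (t - 1) * (N * S)) :
    HasRefutation t m n (((m * 2 ^ S) ^ (32 * t) : ℕ) : ℝ) := by
  obtain ⟨D, bit, be, hB, hD⟩ := hDt m n L t N S (N + j) ht (by omega) hL hm hk hn2
  refine ref_of_DS pr_Conv pr_Sz (hTot m n L t N S j D bit be hn ht hS hB hD) ?_
  exact_mod_cast hNm m n L t N S j ht hn hL hm hk hn2

theorem HasRefutation_mono {t m n : ℕ} {S S' : ℝ} (h : HasRefutation t m n S) (hS : S ≤ S') :
    HasRefutation t m n S' := by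
  obtain ⟨k, P, g1, g2, g3, g4⟩ := h
  exact ⟨k, P, g1, g2, g3, g4.trans hS⟩

/-- All `m ≥ n²`. -/
theorem all_m (hTot : S_Tot) (hDt : S_Dt) (hNm : S_Nm) (hPr : S_Pr) (t n m : ℕ) (ht : 1 ≤ t)
    (hn : 16 ≤ n) (hm : n ^ 2 ≤ m) :
    HasRefutation t m n ((m : ℝ) ^ (36 * t) *
      Real.exp (64 * t * 2 ^ t * n * Real.log n ^ (t - 1) / Real.log m ^ t)) := by
  obtain ⟨L, N, S, j, hL, h1, h2, h3, h4, h5⟩ := hPr t n m ht hn hm
  exact HasRefutation_mono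
    (param hTot hDt hNm m n L t N S j ht (by omega) hL h1 h2 h3 h4) h5

/-- The best `m`. -/
theorem best_m (hTot : S_Tot) (hDt : S_Dt) (hNm : S_Nm) (hPr : S_Pr) (hAs : S_As) (t n : ℕ)
    (ht : 1 ≤ t) (hn : 16 ≤ n) : ∃ m : ℕ, n < m ∧
    HasRefutation t m n (Real.exp (172 * t * (n : ℝ) ^ (1 / ((t : ℝ) + 1)) *
      Real.log n ^ (((t : ℝ) - 1) / (t + 1)))) := by
  obtain ⟨m, h1, h2, h3⟩ := hAs t n ht hn
  exact ⟨m, h1, HasRefutation_mono (all_m hTot hDt hNm hPr t n m ht hn h2) h3⟩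

end Pool.Agent.Work.MP_f7ef37_lc.HL
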