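import Pool.Agent.Work.MP_f7ef37_lc.Up.Main

/-!
# Block HL (captain helper65, note 4758): one bit of the pigeon name for every group of holes

Lines, terms and the calculus are those of `Up/Defs.lean`: `Line m n`, `Ok t F` (all terms have between
`1` and `t` literals), `Step`, `Der`, `DS t A B k` (from the lines of `A` one can derive all lines of
`B` with at most `k` new lines), `U t m n`, `negs`, `pig`; paths: `Data`, `node`, `term`, `InB`, `Cn`.
-/

set_option autoImplicit false

open Finset

namespace Pool.Agent.Work.MP_f7ef37_lc.HL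

open Pool.Agent.Work.MP_f7ef37_lc.Up

variable {m n L : ℕ}

open Classical in
/-- The terms of `r + 1` reads which start in a hole of `Z` and whose last pigeon has the bit `b` at
the place `i`. -/
noncomputable def Eb (D : Data m n L) (bit : Fin m → ℕ → Bool) (r i : ℕ) (b : Bool)
    (Z : Finset (Fin n)) : Line m n :=
  Finset.univ.filter (fun T => ∃ c ∈ Z, ∃ p : ℕ → Fin m, T = term D c p (r + 1) ∧ bit (p r) i = b)

open Classical in
/-- The terms of `r + 1` reads which start in a hole `c` of `Bk`, not in `R`, of a group `g c < i`,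
and whose last pigeon has the bits `a l` at the places `g c ≤ l < i`. -/
noncomputable def Kk (D : Data m n L) (bit : Fin m → ℕ → Bool) (r : ℕ) (g : Fin n → ℕ)
    (Bk : Finset (Fin n)) (i : ℕ) (a : ℕ → Bool) (R : Finset (Fin n)) : Line m n :=
  Finset.univ.filter (fun T => ∃ c ∈ Bk \ R, g c < i ∧ ∃ p : ℕ → Fin m,
    T = term D c p (r + 1) ∧ ∀ l, g c ≤ l → l < i → bit (p r) l = a l)

/-- The weight of a hole of the group `g` at the stage `i` (there are `N` groups). -/
noncomputable def wt (N i g : ℕ) : ℝ := (3 / 2 : ℝ) ^ (min i N - 1 - g)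

/-- The bound for the total weight of the exceptional holes at the stage `i`. -/
noncomputable def Wb (N S : ℕ) : ℕ → ℝ
  | 0 => 0
  | i + 1 => if i < N then 3 / 4 * Wb N S i + S / 2 else Wb N S i / 2

open Classical in
/-- The exceptional sets which are allowed at the stage `i`. -/
noncomputable def Rf (N S : ℕ) (g : Fin n → ℕ) (Bk : Finset (Fin n)) (i : ℕ) :
    Finset (Finset (Fin n)) :=
  Bk.powerset.filter (fun R => (∀ c ∈ R, g c < i) ∧ ∑ c ∈ R, wt N i (g c) ≤ Wb N S i)

/-- A finite sequence of bits, extended by `false`. -/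
def ex {k : ℕ} (a : Fin k → Bool) (l : ℕ) : Bool := if h : l < k then a ⟨l, h⟩ else false

/-- Number of lines for the weighted minority lemma for a set of at most `4 S` holes. -/
def CM (t m n S : ℕ) : ℕ := (4 * S + 1) * (2 ^ (4 * S) * (6 * U t m n ^ 2))

/-- Number of lines for one step of the chain. -/
def CS (t m n S : ℕ) : ℕ := 2 * 2 ^ (4 * S) + CM t m n S

/-- Number of lines for the chain. -/
def CC (t m n k S : ℕ) : ℕ := k * (2 ^ k * 2 ^ (5 * S) * CS t m n S)

/-- Number of lines for a block of level `t - 1 - j`. -/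
def NT (t m n L k S : ℕ) : ℕ → ℕ
  | 0 => 2 ^ k * (5 * n * U t m n) + CC t m n k S
  | j + 1 => n ^ L * (5 * n * U t m n) + L * (n ^ L * NT t m n L k S j)

/-- The groups: `g` divides `Bk` into at most `N` groups of at most `S` holes. -/
def Grp (N S : ℕ) (g : Fin n → ℕ) (Bk : Finset (Fin n)) : Prop :=
  (∀ c ∈ Bk, g c < N) ∧ ∀ i, (Bk.filter (fun c => g c = i)).card ≤ S

/-- The bits: `be a` has the bits `a l` for `l < k`. -/
def Bits (m k : ℕ) (bit : Fin m → ℕ → Bool) (be : (ℕ → Bool) → Fin m) : Prop :=
  ∀ a l, l < k → bit (be a) l = a l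

end Pool.Agent.Work.MP_f7ef37_lc.HL
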