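import Pool.Agent.Work.MP_f7ef37_lc.HL.Stmts

/-!
# Block HL, item As (helper73): the best number of pigeons
-/

set_option autoImplicit false

open Finset

namespace Pool.Agent.Work.MP_f7ef37_lc.HL

open Pool.Agent.Work.MP_f7ef37_lc.Up

namespace XAs

theorem exp_ge_sq {l : ℝ} (hl : 0 ≤ l) : l ^ 2 ≤ Real.exp l := by
  have h1 : l ≤ Real.exp (l / 2) := by
    have h2 : l / 2 ≤ Real.exp (l / 2 - 1) := by
      have := Real.add_one_le_exp (l / 2 - 1)
      linarith
    have h3 : Real.exp (l / 2) = Real.exp (l / 2 - 1) * Real.exp 1 := by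
      rw [← Real.exp_add]; ring_nf
    have h4 : (2 : ℝ) ≤ Real.exp 1 := by
      have := Real.add_one_le_exp (1 : ℝ)
      linarith
    have h5 : 0 ≤ Real.exp (l / 2 - 1) := (Real.exp_pos _).le
    rw [h3]
    nlinarith
  have h6 : Real.exp l = Real.exp (l / 2) ^ 2 := by
    rw [← Real.exp_nat_mul]; congr 1; push_cast; ring
  rw [h6]
  exact pow_le_pow_left₀ hl h1 2

theorem ypow {t : ℕ} {n l : ℝ} (ht : 1 ≤ t) (hn : 0 ≤ n) (hl : 0 ≤ l) :
    (n ^ (1 / ((t : ℝ) + 1)) * l ^ (((t : ℝ) - 1) / (t + 1))) ^ (t + 1) = n * l ^ (t - 1) := by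
  have h0 : (t : ℝ) + 1 ≠ 0 := by positivity
  rw [mul_pow, ← Real.rpow_natCast, ← Real.rpow_mul hn, ← Real.rpow_natCast, ← Real.rpow_mul hl]
  have e1 : 1 / ((t : ℝ) + 1) * ((t + 1 : ℕ) : ℝ) = 1 := by
    push_cast; field_simp
  have e2 : ((t : ℝ) - 1) / (t + 1) * ((t + 1 : ℕ) : ℝ) = ((t - 1 : ℕ) : ℝ) := by
    rw [Nat.cast_sub ht]; push_cast; field_simp
  rw [e1, e2, Real.rpow_one, Real.rpow_natCast]

end XAs

open XAs

theorem pr_As : S_As := by
  intro t n ht hn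
  have hnR : (16 : ℝ) ≤ n := by exact_mod_cast hn
  have hn0 : (0 : ℝ) < n := by linarith
  set l : ℝ := Real.log n with hl
  have hl1 : 1 ≤ l := by
    rw [hl, Real.le_log_iff_exp_le hn0]
    have := Real.exp_one_lt_d9
    linarith
  have hl0 : 0 ≤ l := by linarith
  have hexpl : Real.exp l = n := Real.exp_log hn0
  have hnl : l ^ 2 ≤ n := by rw [← hexpl]; exact exp_ge_sq hl0
  set y : ℝ := (n : ℝ) ^ (1 / ((t : ℝ) + 1)) * l ^ (((t : ℝ) - 1) / (t + 1)) with hy
  have hy0 : 0 ≤ y := by positivity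
  have hyp : y ^ (t + 1) = n * l ^ (t - 1) := ypow ht hn0.le hl0
  have hyl : l ≤ y := by
    have h1 : l ^ (t + 1) ≤ y ^ (t + 1) := by
      rw [hyp]
      have h2 : l ^ (t + 1) = l ^ 2 * l ^ (t - 1) := by
        rw [← pow_add]; congr 1; omega
      rw [h2]
      exact mul_le_mul_of_nonneg_right hnl (by positivity)
    exact le_of_pow_le_pow_left₀ (by omega) hy0 h1
  have hy1 : 1 ≤ y := hl1.trans hyl
  have hypos : 0 < y := by linarith
  set m : ℕ := ⌈Real.exp (2 * y)⌉₊ with hm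
  have hm1 : Real.exp (2 * y) ≤ m := Nat.le_ceil _
  have hm2 : (m : ℝ) ≤ Real.exp (3 * y) := by
    have h1 : (m : ℝ) < Real.exp (2 * y) + 1 := Nat.ceil_lt_add_one (Real.exp_pos _).le
    have h2 : Real.exp (3 * y) = Real.exp (2 * y) * Real.exp y := by
      rw [← Real.exp_add]; ring_nf
    have h3 : y + 1 ≤ Real.exp y := Real.add_one_le_exp y
    have h4 : 1 ≤ Real.exp (2 * y) := Real.one_le_exp (by linarith)
    rw [h2]
    nlinarith
  have hm0 : (0 : ℝ) < m := lt_of_lt_of_le (Real.exp_pos _) hm1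
  have hnm : (n : ℝ) ^ 2 ≤ m := by
    refine le_trans ?_ hm1
    have h1 : (n : ℝ) ^ 2 = Real.exp (2 * l) := by
      rw [← hexpl, ← Real.exp_nat_mul]; congr 1
    rw [h1]
    exact Real.exp_le_exp.mpr (by linarith)
  have hnmN : n ^ 2 ≤ m := by exact_mod_cast hnm
  refine ⟨m, ?_, hnmN, ?_⟩
  · have : n < n ^ 2 := by nlinarith
    omega
  · have hlog1 : 2 * y ≤ Real.log m := by
      rw [Real.le_log_iff_exp_le hm0]; exact hm1
    have h1 : (m : ℝ) ^ (36 * t) ≤ Real.exp (108 * t * y) := by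
      have h2 : (m : ℝ) ^ (36 * t) ≤ Real.exp (3 * y) ^ (36 * t) :=
        pow_le_pow_left₀ hm0.le hm2 _
      refine h2.trans (le_of_eq ?_)
      rw [← Real.exp_nat_mul]; congr 1; push_cast; ring
    have h3 : 64 * t * 2 ^ t * n * l ^ (t - 1) / Real.log m ^ t ≤ 64 * t * y := by
      have h4 : (2 * y) ^ t ≤ Real.log m ^ t := pow_le_pow_left₀ (by linarith) hlog1 _
      have h5 : 0 < (2 * y) ^ t := by positivity
      have h6 : 64 * t * 2 ^ t * n * l ^ (t - 1) / Real.log m ^ t ≤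
          64 * t * 2 ^ t * n * l ^ (t - 1) / (2 * y) ^ t := by
        apply div_le_div_of_nonneg_left _ h5 h4
        positivity
      refine h6.trans (le_of_eq ?_)
      have h7 : 64 * t * 2 ^ t * n * l ^ (t - 1) = 64 * t * 2 ^ t * y ^ (t + 1) := by
        rw [hyp]; ring
      rw [h7, div_eq_iff h5.ne', mul_pow, pow_succ]
      ring
    have h8 : Real.exp (64 * t * 2 ^ t * n * l ^ (t - 1) / Real.log m ^ t) ≤
        Real.exp (64 * t * y) := Real.exp_le_exp.mpr h3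
    calc (m : ℝ) ^ (36 * t) * Real.exp (64 * t * 2 ^ t * n * l ^ (t - 1) / Real.log m ^ t)
        ≤ Real.exp (108 * t * y) * Real.exp (64 * t * y) :=
          mul_le_mul h1 h8 (Real.exp_pos _).le (Real.exp_pos _).le
      _ = Real.exp (172 * t * (n : ℝ) ^ (1 / ((t : ℝ) + 1)) * l ^ (((t : ℝ) - 1) / (t + 1))) := by
          rw [← Real.exp_add]; congr 1; rw [hy]; ring

end Pool.Agent.Work.MP_f7ef37_lc.HL
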