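import Pool.Agent.Work.MP_f7ef37_lc.HL.Stmts

set_option autoImplicit false

namespace Pool.Agent.Work.MP_f7ef37_lc.HL

open Pool.Agent.Work.MP_f7ef37_lc.Up Finset

namespace XChn

theorem ex_update {k : ℕ} (a : Fin k → Bool) (i : ℕ) (hi : i < k) (b : Bool) :
    Function.update (ex a) i b = ex (Function.update a ⟨i, hi⟩ b) := by
  funext l
  by_cases h : l = i
  · subst h
    rw [Function.update_self]
    unfold ex
    rw [dif_pos hi, Function.update_self]
  · rw [Function.update_of_ne h]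
    unfold ex
    by_cases hl : l < k
    · rw [dif_pos hl, dif_pos hl, Function.update_of_ne]
      intro h'
      exact h (congrArg Fin.val h')
    · rw [dif_neg hl, dif_neg hl]

open Classical in
theorem claim (hStp : S_Stp) (hCnt : S_Cnt) (hWe : S_We)
    (m n L t r N S j : ℕ) (D : Data m n L) (bit : Fin m → ℕ → Bool) (Γ : Line m n)
    (g : Fin n → ℕ) (Bk : Finset (Fin n)) (ht : r + 1 ≤ t) (hΓ : Ok t Γ) (hg : Grp N S g Bk)
    (hj : 2 * S < 2 ^ j) :
    ∀ d i : ℕ, i + d = N + j →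
      DS t {F | ∃ a : Fin (N + j) → Bool, F = Γ ∪ Kk D bit r g Bk (N + j) (ex a) ∅}
        {F | ∃ a : Fin (N + j) → Bool, ∃ R ∈ Rf N S g Bk i, F = Γ ∪ Kk D bit r g Bk i (ex a) R}
        (d * (2 ^ (N + j) * 2 ^ (5 * S) * CS t m n S)) := by
  set A : Set (Line m n) :=
    {F | ∃ a : Fin (N + j) → Bool, F = Γ ∪ Kk D bit r g Bk (N + j) (ex a) ∅} with hA
  intro d
  induction d with
  | zero =>
    intro i hi
    have hi' : i = N + j := by omega
    subst hi'
    refine ⟨[], Der.nil, ?_, Nat.zero_le _⟩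
    rintro F ⟨a, R, hR, rfl⟩
    left
    refine ⟨a, ?_⟩
    rw [(hWe n N S j g Bk hj).1 R hR]
  | succ d ih =>
    intro i hi
    have h7 := ih (i + 1) (by omega)
    set B : Set (Line m n) := {F | ∃ a : Fin (N + j) → Bool, ∃ R ∈ Rf N S g Bk (i + 1),
      F = Γ ∪ Kk D bit r g Bk (i + 1) (ex a) R} with hB
    have h8 : ∀ q ∈ ((univ : Finset (Fin (N + j) → Bool)) ×ˢ Rf N S g Bk i),
        DS t (A ∪ B) {Γ ∪ Kk D bit r g Bk i (ex q.1) q.2} (CS t m n S) := by
      rintro ⟨a, R⟩ hq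
      have hR := (mem_product.1 hq).2
      have h9 := hStp m n L t r i N S D bit Γ g Bk R (ex a) ht hΓ hg hR
      refine pr_Mono m n t _ _ _ _ _ _ ?_ subset_rfl le_rfl h9
      rintro F ⟨b, R', hR', rfl⟩
      right
      exact ⟨Function.update a ⟨i, by omega⟩ b, R', hR', by rw [ex_update a i (by omega) b]⟩
    have h9 := pr_Fam pr_Mono pr_Trans ((Fin (N + j) → Bool) × Finset (Fin n)) m n t _ _
      ((univ : Finset (Fin (N + j) → Bool)) ×ˢ Rf N S g Bk i)
      (fun q => Γ ∪ Kk D bit r g Bk i (ex q.1) q.2) h8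
    have h10 := pr_Trans m n t _ _ _ _ _ h7 h9
    refine pr_Mono m n t _ _ _ _ _ _ subset_rfl ?_ ?_ h10
    · rintro F ⟨a, R, hR, rfl⟩
      right
      exact ⟨(a, R), mem_product.2 ⟨mem_univ _, hR⟩, rfl⟩
    · have h11 : ((univ : Finset (Fin (N + j) → Bool)) ×ˢ Rf N S g Bk i).card ≤
          2 ^ (N + j) * 2 ^ (5 * S) := by
        rw [card_product]
        refine Nat.mul_le_mul ?_ (hCnt n N S i g Bk hg)
        simp
      have h12 := Nat.mul_le_mul_right (CS t m n S) h11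
      calc d * (2 ^ (N + j) * 2 ^ (5 * S) * CS t m n S) +
            ((univ : Finset (Fin (N + j) → Bool)) ×ˢ Rf N S g Bk i).card * CS t m n S
          ≤ d * (2 ^ (N + j) * 2 ^ (5 * S) * CS t m n S) +
            2 ^ (N + j) * 2 ^ (5 * S) * CS t m n S := Nat.add_le_add_left h12 _
        _ = (d + 1) * (2 ^ (N + j) * 2 ^ (5 * S) * CS t m n S) := by ring

end XChn

open XChn in
open Classical in
theorem pr_Chn (hStp : S_Stp) (hCnt : S_Cnt) (hWe : S_We) : S_Chn := by
  intro m n L t r N S j D bit Γ g Bk ht hΓ hg hj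
  have h := claim hStp hCnt hWe m n L t r N S j D bit Γ g Bk ht hΓ hg hj (N + j) 0 (by omega)
  refine pr_Mono m n t _ _ _ _ _ _ subset_rfl ?_ le_rfl h
  rintro F hF
  rw [Set.mem_singleton_iff] at hF
  refine ⟨fun _ => false, ∅, (hWe n N S j g Bk hj).2, ?_⟩
  rw [hF]
  refine (Finset.union_eq_left.2 ?_).symm
  intro T' hT'
  obtain ⟨_, c, _, hc, _⟩ := mem_filter.1 hT'
  exact absurd hc (Nat.not_lt_zero _)

end Pool.Agent.Work.MP_f7ef37_lc.HL
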