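import Pool.Agent.Work.MP_f7ef37_lc.HL.Stmts

/-!
# Block HL, item Cnt: the number of exceptional sets
-/

set_option autoImplicit false

open Finset

namespace Pool.Agent.Work.MP_f7ef37_lc.HL

open Pool.Agent.Work.MP_f7ef37_lc.Up

namespace XCnt

theorem Wb_le (N S : ℕ) : ∀ i, Wb N S i ≤ 2 * (S : ℝ)
  | 0 => by
    rw [Wb]
    positivity
  | i + 1 => by
    have ih := Wb_le N S i
    have hS : (0 : ℝ) ≤ (S : ℝ) := Nat.cast_nonneg S
    rw [Wb]
    split_ifs <;> linarith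

theorem sq_le : (2 : ℝ) ^ (-(1 / 2) : ℝ) ≤ 7072 / 10000 := by
  have h0 : (0 : ℝ) ≤ (2 : ℝ) ^ (-(1 / 2) : ℝ) := Real.rpow_nonneg (by norm_num) _
  have h1 : ((2 : ℝ) ^ (-(1 / 2) : ℝ)) ^ 2 = 1 / 2 := by
    rw [← Real.rpow_natCast, ← Real.rpow_mul (by norm_num)]
    norm_num
  nlinarith

/-- the weight of one element -/
theorem y_le (a : ℕ) : (2 : ℝ) ^ (-((3 / 2 : ℝ) ^ a)) ≤ 1 / 2 * (7072 / 10000) ^ a := by
  have hB : 1 + (a : ℝ) * (1 / 2) ≤ (3 / 2 : ℝ) ^ a := by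
    have h := one_add_mul_le_pow (a := (1 / 2 : ℝ)) (by norm_num) a
    have h2 : (1 + 1 / 2 : ℝ) = 3 / 2 := by norm_num
    rw [h2] at h
    exact h
  have h1 : (2 : ℝ) ^ (-((3 / 2 : ℝ) ^ a)) ≤ (2 : ℝ) ^ (-(1 + (a : ℝ) * (1 / 2))) :=
    Real.rpow_le_rpow_of_exponent_le (by norm_num) (by linarith)
  refine h1.trans ?_
  have h2 : (2 : ℝ) ^ (-(1 + (a : ℝ) * (1 / 2))) = 1 / 2 * ((2 : ℝ) ^ (-(1 / 2) : ℝ)) ^ a := by
    rw [← Real.rpow_natCast ((2 : ℝ) ^ (-(1 / 2) : ℝ)) a, ← Real.rpow_mul (by norm_num)]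
    have h3 : (1 / 2 : ℝ) = (2 : ℝ) ^ (-1 : ℝ) := by
      rw [Real.rpow_neg_one]
      norm_num
    have h4 : (-(1 + (a : ℝ) * (1 / 2))) = -1 + (-(1 / 2)) * (a : ℝ) := by ring
    rw [h4, Real.rpow_add (by norm_num), ← h3]
  rw [h2]
  exact mul_le_mul_of_nonneg_left
    (pow_le_pow_left₀ (Real.rpow_nonneg (by norm_num) _) sq_le a) (by norm_num)

theorem geo (k : ℕ) : ∑ j ∈ range k, (7072 / 10000 : ℝ) ^ j ≤ 10000 / 2928 := by
  have h := mul_neg_geom_sum (7072 / 10000 : ℝ) k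
  have h2 : (0 : ℝ) ≤ (7072 / 10000 : ℝ) ^ k := by positivity
  have h3 : (1 - 7072 / 10000 : ℝ) = 2928 / 10000 := by norm_num
  rw [h3] at h
  linarith

/-- the sum of the weights -/
theorem sum_le {n : ℕ} (N S i : ℕ) (g : Fin n → ℕ) (Bk : Finset (Fin n)) (hG : Grp N S g Bk) :
    ∑ c ∈ Bk.filter (fun c => g c < i), (2 : ℝ) ^ (-(wt N i (g c))) ≤ 3 * S * Real.log 2 := by
  obtain ⟨h1, h2⟩ := hG
  set Z := Bk.filter (fun c => g c < i) with hZ
  have hmaps : ∀ c ∈ Z, g c ∈ range (min i N) := by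
    intro c hc
    rw [hZ, Finset.mem_filter] at hc
    rw [Finset.mem_range]
    exact lt_min hc.2 (h1 c hc.1)
  rw [← Finset.sum_fiberwise_of_maps_to hmaps]
  have h3 : ∀ j ∈ range (min i N),
      ∑ c ∈ Z.filter (fun c => g c = j), (2 : ℝ) ^ (-(wt N i (g c))) ≤
        (S : ℝ) * (1 / 2) * (7072 / 10000) ^ (min i N - 1 - j) := by
    intro j _
    have h4 : ∀ c ∈ Z.filter (fun c => g c = j), (2 : ℝ) ^ (-(wt N i (g c))) ≤
        1 / 2 * (7072 / 10000) ^ (min i N - 1 - j) := by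
      intro c hc
      rw [(Finset.mem_filter.1 hc).2]
      unfold wt
      exact y_le _
    refine (Finset.sum_le_card_nsmul _ _ _ h4).trans ?_
    rw [nsmul_eq_mul, mul_assoc]
    refine mul_le_mul_of_nonneg_right ?_ (by positivity)
    have h5 : (Z.filter (fun c => g c = j)).card ≤ S := by
      refine (Finset.card_le_card ?_).trans (h2 j)
      intro c hc
      rw [Finset.mem_filter] at hc ⊢
      exact ⟨(Finset.mem_filter.1 hc.1).1, hc.2⟩
    exact_mod_cast h5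
  refine (Finset.sum_le_sum h3).trans ?_
  rw [← Finset.mul_sum, Finset.sum_range_reflect (fun j => (7072 / 10000 : ℝ) ^ j) (min i N)]
  have h6 := geo (min i N)
  have h7 := Real.log_two_gt_d9
  have hS : (0 : ℝ) ≤ (S : ℝ) := Nat.cast_nonneg S
  have h8 : (S : ℝ) * (1 / 2) * ∑ j ∈ range (min i N), (7072 / 10000 : ℝ) ^ j ≤
      (S : ℝ) * (1 / 2) * (10000 / 2928) := mul_le_mul_of_nonneg_left h6 (by positivity)
  have h9 : (S : ℝ) * (2.07) ≤ S * (3 * Real.log 2) :=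
    mul_le_mul_of_nonneg_left (by linarith) hS
  have h10 : (S : ℝ) * (1 / 2) * (10000 / 2928) ≤ S * 2.07 := by
    rw [mul_assoc]
    exact mul_le_mul_of_nonneg_left (by norm_num) hS
  linarith

end XCnt

open XCnt in
open Classical in
theorem pr_Cnt : S_Cnt := by
  intro n N S i g Bk hG
  set Z := Bk.filter (fun c => g c < i) with hZ
  have hS : (0 : ℝ) ≤ (S : ℝ) := Nat.cast_nonneg S
  -- every exceptional set has a large product
  have h1 : ∀ R ∈ Rf N S g Bk i,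
      (1 : ℝ) ≤ 2 ^ (2 * S) * ∏ c ∈ R, (2 : ℝ) ^ (-(wt N i (g c))) := by
    intro R hR
    unfold Rf at hR
    rw [Finset.mem_filter] at hR
    have h2 : ∏ c ∈ R, (2 : ℝ) ^ (-(wt N i (g c))) = (2 : ℝ) ^ (-(∑ c ∈ R, wt N i (g c))) := by
      rw [← Finset.sum_neg_distrib, Real.rpow_sum_of_pos (by norm_num)]
    rw [h2]
    have h3 : (2 : ℝ) ^ (2 * S) = (2 : ℝ) ^ ((2 * S : ℕ) : ℝ) := (Real.rpow_natCast _ _).symm
    rw [h3, ← Real.rpow_add (by norm_num)]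
    apply Real.one_le_rpow (by norm_num)
    have h4 := hR.2.2
    have h5 := Wb_le N S i
    push_cast
    linarith
  have h6 : (Rf N S g Bk i) ⊆ Z.powerset := by
    intro R hR
    unfold Rf at hR
    rw [Finset.mem_filter, Finset.mem_powerset] at hR
    rw [Finset.mem_powerset]
    intro c hc
    rw [hZ, Finset.mem_filter]
    exact ⟨hR.1 hc, hR.2.1 c hc⟩
  have hpos : ∀ c : Fin n, (0 : ℝ) ≤ (2 : ℝ) ^ (-(wt N i (g c))) := fun c =>
    Real.rpow_nonneg (by norm_num) _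
  have h7 : ((Rf N S g Bk i).card : ℝ) ≤
      2 ^ (2 * S) * ∏ c ∈ Z, (1 + (2 : ℝ) ^ (-(wt N i (g c)))) := by
    rw [Finset.prod_one_add]
    calc ((Rf N S g Bk i).card : ℝ) = ∑ R ∈ Rf N S g Bk i, (1 : ℝ) := by simp
      _ ≤ ∑ R ∈ Rf N S g Bk i, 2 ^ (2 * S) * ∏ c ∈ R, (2 : ℝ) ^ (-(wt N i (g c))) :=
        Finset.sum_le_sum h1
      _ ≤ ∑ R ∈ Z.powerset, 2 ^ (2 * S) * ∏ c ∈ R, (2 : ℝ) ^ (-(wt N i (g c))) := by
        refine Finset.sum_le_sum_of_subset_of_nonneg h6 fun R _ _ => ?_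
        exact mul_nonneg (by positivity) (Finset.prod_nonneg fun c _ => hpos c)
      _ = 2 ^ (2 * S) * ∑ R ∈ Z.powerset, ∏ c ∈ R, (2 : ℝ) ^ (-(wt N i (g c))) := by
        rw [Finset.mul_sum]
  have h8 : ∏ c ∈ Z, (1 + (2 : ℝ) ^ (-(wt N i (g c)))) ≤ 2 ^ (3 * S) := by
    calc ∏ c ∈ Z, (1 + (2 : ℝ) ^ (-(wt N i (g c)))) ≤
        ∏ c ∈ Z, Real.exp ((2 : ℝ) ^ (-(wt N i (g c)))) := by
          refine Finset.prod_le_prod (fun c _ => by linarith [hpos c]) fun c _ => ?_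
          have := Real.add_one_le_exp ((2 : ℝ) ^ (-(wt N i (g c))))
          linarith
      _ = Real.exp (∑ c ∈ Z, (2 : ℝ) ^ (-(wt N i (g c)))) := (Real.exp_sum _ _).symm
      _ ≤ Real.exp (3 * S * Real.log 2) := Real.exp_le_exp.2 (sum_le N S i g Bk hG)
      _ = 2 ^ (3 * S) := by
        rw [mul_comm, Real.exp_mul, Real.exp_log (by norm_num)]
        have h9 : (3 * (S : ℝ)) = ((3 * S : ℕ) : ℝ) := by push_cast; rfl
        rw [h9, Real.rpow_natCast]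
  have h10 : ((Rf N S g Bk i).card : ℝ) ≤ ((2 ^ (5 * S) : ℕ) : ℝ) := by
    refine h7.trans ?_
    refine (mul_le_mul_of_nonneg_left h8 (by positivity)).trans ?_
    rw [← pow_add]
    push_cast
    have h11 : 2 * S + 3 * S = 5 * S := by ring
    rw [h11]
  exact_mod_cast h10

end Pool.Agent.Work.MP_f7ef37_lc.HL
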