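import Pool.Agent.Work.MP_f7ef37_lc.HL.Stmts

set_option autoImplicit false

namespace Pool.Agent.Work.MP_f7ef37_lc.HL

open Pool.Agent.Work.MP_f7ef37_lc.Up Finset

namespace XCx

theorem ok_union {m n : ℕ} {t : ℕ} {F G : Line m n} (hF : Ok t F) (hG : Ok t G) :
    Ok t (F ∪ G) := by
  intro T hT
  rcases Finset.mem_union.1 hT with h | h
  · exact hF T h
  · exact hG T h

theorem negs_mono {m n : ℕ} {T T' : Term m n} (h : T ⊆ T') : negs T ⊆ negs T' :=
  image_subset_image h

theorem term_mono {m n L : ℕ} (D : Data m n L) (c : Fin n) (p : ℕ → Fin m) {k k' : ℕ}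
    (h : k ≤ k') : term D c p k ⊆ term D c p k' :=
  image_subset_image (range_mono h)

/-- Two paths from `c` with different last pigeons are in conflict. -/
theorem conflict {m n L : ℕ} (D : Data m n L) (c : Fin n) (p p' : ℕ → Fin m) (r : ℕ)
    (h : p r ≠ p' r) : ∃ (a b : Fin m) (y : Fin n), a ≠ b ∧
      (b, y, true) ∈ term D c p' (r + 1) ∧
      ({(a, y, false)} : Term m n) ∈ negs (term D c p (r + 1)) := by
  by_cases hn : node D c p r = node D c p' r
  · refine ⟨p r, p' r, node D c p r, h, ?_, ?_⟩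
    · exact mem_image.2 ⟨r, mem_range.2 (by omega), by rw [hn]⟩
    · refine mem_image.2 ⟨(p r, node D c p r, true),
        mem_image.2 ⟨r, mem_range.2 (by omega), rfl⟩, ?_⟩
      simp
  · obtain ⟨a, b, y, h1, h2, h3⟩ := pr_ConfT m n L r D c p p' hn
    exact ⟨a, b, y, h1, term_mono D c p' (by omega) h2,
      negs_mono (term_mono D c p (by omega)) h3⟩

end XCx

open XCx in
theorem pr_Cx (hOk : S_Ok) : S_Cx := by
  classical
  intro m n L t r i D bit Γ Y c p ht hΓ hp
  have hRepl := pr_Repl pr_Mono pr_Trans pr_One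
  set G : Line m n := Γ ∪ Eb D bit r i true (insert c Y) with hG
  set B : Line m n := Eb D bit r i true {c} with hB
  set H : Line m n := (Γ ∪ Eb D bit r i true Y) ∪ negs (term D c p (r + 1)) with hH
  have okE : ∀ Z, Ok t (Eb D bit r i true Z) := fun Z =>
    (hOk m n L t r i D bit true Z (fun _ => 0) ∅ (fun _ => true) ∅ ht).1
  have hGok : Ok t G := ok_union hΓ (okE _)
  have hBok : Ok t B := okE _
  have hHok : Ok t H := ok_union (ok_union hΓ (okE _)) (pr_NegsOk m n t _ (by omega))
  have hmain : DS t ({G} : Set (Line m n)) {(G \ B) ∪ H} (B.card * 3 + 1) := by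
    refine hRepl m n t 3 {G} G B H rfl hGok hHok ?_
    intro T' hT' K hK hTK
    obtain ⟨_, c', hc', p', hp', hb'⟩ := mem_filter.1 hT'
    rw [mem_singleton] at hc'
    subst hc'
    have hne : p r ≠ p' r := by
      intro h
      rw [h, hb'] at hp
      exact absurd hp (by simp)
    obtain ⟨a, b, y, hab, hb, ha⟩ := conflict D c' p p' r hne
    rw [← hp'] at hb
    have hc := pr_Conf m n t K H T' a b y (by omega) hK hHok hTK hab hb (mem_union_right _ ha)
    exact pr_Mono m n t 3 3 {K} ({G} ∪ {K}) _ _ Set.subset_union_right subset_rfl le_rfl hc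
  have heq : (G \ B) ∪ H = H := by
    apply Finset.union_eq_right.2
    intro T0 hT0
    rw [mem_sdiff] at hT0
    obtain ⟨hg, hb⟩ := hT0
    apply mem_union_left
    rcases mem_union.1 hg with h | h
    · exact mem_union_left _ h
    · apply mem_union_right
      obtain ⟨_, c', hc', p', hp', hb'⟩ := mem_filter.1 h
      rcases mem_insert.1 hc' with h | h
      · exfalso
        exact hb (mem_filter.2 ⟨mem_univ _, c', by rw [h]; exact mem_singleton_self c, p', hp', hb'⟩)
      · exact mem_filter.2 ⟨mem_univ _, c', h, p', hp', hb'⟩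
  rw [heq] at hmain
  refine pr_Mono m n t _ _ _ _ _ _ subset_rfl subset_rfl ?_ hmain
  have := (pr_Sz m n t B hBok).1
  omega

end Pool.Agent.Work.MP_f7ef37_lc.HL
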