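import Pool.Agent.Work.MP_f7ef37_lc.HL.Stmts

set_option autoImplicit false

namespace Pool.Agent.Work.MP_f7ef37_lc.HL

open Pool.Agent.Work.MP_f7ef37_lc.Up Finset

open Classical in
theorem pr_Cz (hOk : S_Ok) (hCx : S_Cx) : S_Cz := by
  intro m n L t r i D bit Γ T Y ht hΓ
  have hRepl := pr_Repl pr_Mono pr_Trans pr_One
  have hFam := pr_Fam pr_Mono pr_Trans
  have okU : ∀ {F G : Line m n}, Ok t F → Ok t G → Ok t (F ∪ G) := by
    intro F G hF hG T hT
    rcases mem_union.1 hT with h | h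
    · exact hF T h
    · exact hG T h
  have okEb : ∀ b Z, Ok t (Eb D bit r i b Z) := fun b Z =>
    (hOk m n L t r i D bit b Z (fun _ => 0) ∅ (fun _ => true) ∅ ht).1
  set E : Line m n := Eb D bit r i false (T \ Y) with hE
  set H : Line m n := Γ ∪ Eb D bit r i true Y with hH
  have okE : Ok t E := okEb _ _
  have okH : Ok t H := okU hΓ (okEb _ _)
  have okL : Ok t (Γ ∪ E) := okU hΓ okE
  have hcard : E.card ≤ U t m n := (pr_Sz m n t E okE).1
  have hU : 1 ≤ U t m n := Nat.one_le_pow _ _ (Nat.succ_pos _)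
  set A0 : Set (Line m n) := {Γ ∪ E} ∪
    {F | ∃ c ∈ T \ Y, F = Γ ∪ Eb D bit r i true (insert c Y)} with hA0
  have s1 := hFam (Term m n) m n t (3 * U t m n + 1) A0 E (fun T => H ∪ negs T) (fun T' hT => by
    obtain ⟨_, c, hc, p, hTp, hbit⟩ := mem_filter.1 hT
    have hd := hCx m n L t r i D bit Γ Y c p ht hΓ hbit
    rw [← hTp] at hd
    refine pr_Mono m n t _ _ _ _ _ _ ?_ (subset_refl _) le_rfl hd
    rintro F hF
    rw [Set.mem_singleton_iff] at hF
    exact Or.inr ⟨c, hc, hF⟩)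
  set B1 : Set (Line m n) := {G | ∃ T ∈ E, G = H ∪ negs T} with hB1
  have s2 := hRepl m n t 1 (A0 ∪ B1) (Γ ∪ E) E H (Or.inl (Or.inl rfl)) okL okH
    (fun T hT K okK hTK => by
      refine pr_Cut m n t _ K (H ∪ negs T) H T okK okH (Or.inr rfl) (Or.inl (Or.inr ⟨T, hT, rfl⟩)) hTK
        subset_union_right (subset_refl _))
  have s3 := pr_Trans m n t _ _ A0 B1 _ s1 s2
  refine pr_Mono m n t _ _ _ _ _ _ (subset_refl _) ?_ (Lf2_num _ _ hU hcard) s3
  rintro F hF
  rw [Set.mem_singleton_iff] at hF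
  right
  rw [Set.mem_singleton_iff, hF]
  refine (union_eq_right.2 ?_).symm
  intro T hT
  rw [mem_sdiff, mem_union] at hT
  obtain ⟨hT1, hT2⟩ := hT
  rcases hT1 with h | h
  · exact mem_union_left _ h
  · exact absurd h hT2

end Pool.Agent.Work.MP_f7ef37_lc.HL
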