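import Pool.Agent.Work.MP_f7ef37_lc.HL.Stmts

/-! # Block HL, item Dt: the data, the groups and the bits -/

set_option autoImplicit false

open Finset

namespace Pool.Agent.Work.MP_f7ef37_lc.HL

open Pool.Agent.Work.MP_f7ef37_lc.Up

namespace XDt

/-- groups of at most `S` holes -/
theorem groups {n : ℕ} (N S : ℕ) (Bk : Finset (Fin n)) (hB : Bk.card ≤ N * S) :
    ∃ g : Fin n → ℕ, Grp N S g Bk := by
  classical
  let idx : Fin n → ℕ := fun c => if h : c ∈ Bk then (Bk.equivFin ⟨c, h⟩ : ℕ) else 0
  have hidx : ∀ c (h : c ∈ Bk), idx c = (Bk.equivFin ⟨c, h⟩ : ℕ) := fun c h => dif_pos h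
  have hlt : ∀ c ∈ Bk, idx c < N * S := by
    intro c h
    rw [hidx c h]
    exact lt_of_lt_of_le (Bk.equivFin ⟨c, h⟩).2 hB
  refine ⟨fun c => idx c / S, ?_, ?_⟩
  · intro c h
    exact Nat.div_lt_of_lt_mul (by rw [mul_comm]; exact hlt c h)
  · intro i
    rcases Nat.eq_zero_or_pos S with hS | hS
    · have h0 : Bk = ∅ := by
        rw [← Finset.card_eq_zero]
        rw [hS, Nat.mul_zero] at hB
        exact Nat.le_zero.1 hB
      rw [h0, Finset.filter_empty, Finset.card_empty]
      exact Nat.zero_le _
    · have h1 : (Bk.filter (fun c => idx c / S = i)).card ≤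
          (Finset.Ico (i * S) (i * S + S)).card := by
        apply Finset.card_le_card_of_injOn idx
        · intro c hc
          have hc' : c ∈ Bk.filter (fun c => idx c / S = i) := hc
          rw [Finset.mem_filter] at hc'
          obtain ⟨-, h2⟩ := hc'
          show idx c ∈ (Finset.Ico (i * S) (i * S + S) : Finset ℕ)
          rw [Finset.mem_Ico, ← h2]
          constructor
          · exact Nat.div_mul_le_self _ _
          · have := Nat.lt_div_mul_add (a := idx c) hS
            exact this
        · intro c hc d hd hcd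
          have hc' : c ∈ Bk.filter (fun c => idx c / S = i) := hc
          have hd' : d ∈ Bk.filter (fun c => idx c / S = i) := hd
          rw [Finset.mem_filter] at hc' hd'
          rw [hidx c hc'.1, hidx d hd'.1] at hcd
          have h3 := Bk.equivFin.injective (Fin.ext hcd)
          exact congrArg Subtype.val h3
      rw [Nat.card_Ico, Nat.add_sub_cancel_left] at h1
      exact h1

/-- bits of the pigeons -/
theorem bits {m k : ℕ} (hk : 2 ^ k ≤ m) :
    ∃ (bit : Fin m → ℕ → Bool) (be : (ℕ → Bool) → Fin m), Bits m k bit be := by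
  classical
  have hc : Fintype.card (Fin k → Bool) ≤ Fintype.card (Fin m) := by
    rw [Fintype.card_fun, Fintype.card_bool, Fintype.card_fin, Fintype.card_fin]
    exact hk
  obtain ⟨e⟩ := Function.Embedding.nonempty_of_card_le hc
  refine ⟨fun p l => if h : l < k then Function.invFun e p ⟨l, h⟩ else false,
    fun a => e (fun l => a l), ?_⟩
  intro a l hl
  simp only [dif_pos hl]
  rw [Function.leftInverse_invFun e.injective]

end XDt

theorem pr_Dt : S_Dt := by
  intro m n L t N S k ht hn hL hm hk hs
  obtain ⟨D, hD⟩ := pr_Dat m n L (t - 1) (N * S) hn hL hm hs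
  obtain ⟨bit, be, hb⟩ := XDt.bits hk
  refine ⟨D, bit, be, hb, fun w => ?_⟩
  obtain ⟨Bk, hBk, hcard⟩ := hD w
  obtain ⟨g, hg⟩ := XDt.groups N S Bk hcard
  exact ⟨Bk, g, hBk, hg⟩

end Pool.Agent.Work.MP_f7ef37_lc.HL
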