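import Pool.Agent.Work.MP_f7ef37_lc.HL.Stmts

set_option autoImplicit false

namespace Pool.Agent.Work.MP_f7ef37_lc.HL

open Pool.Agent.Work.MP_f7ef37_lc.Up Finset

open Classical in
theorem pr_Inc : S_Inc := by
  intro m n L r i D bit g Bk R R' a a' ha T hT
  obtain ⟨_, c, hc, hci, p, hTp, hp⟩ := mem_filter.1 hT
  rw [mem_sdiff] at hc
  by_cases h : c ∈ R ∪ Bk.filter (fun c => g c = i)
  · refine mem_union_right _ (mem_filter.2 ⟨mem_univ _, c, mem_sdiff.2 ⟨h, hc.2⟩, p, hTp, ?_⟩)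
    exact hp i (by omega) (by omega)
  · refine mem_union_left _ (mem_filter.2 ⟨mem_univ _, c, ?_, ?_, p, hTp, ?_⟩)
    · exact mem_sdiff.2 ⟨hc.1, fun h' => h (mem_union_left _ h')⟩
    · by_contra h'
      exact h (mem_union_right _ (mem_filter.2 ⟨hc.1, by omega⟩))
    · intro l h1 h2
      rw [hp l h1 (by omega), ha l h2]

end Pool.Agent.Work.MP_f7ef37_lc.HL
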