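import Pool.Agent.Work.MP_f7ef37_lc.HL.Stmts

/-!
# Block HL, item Ls0: the last read for blocks of level 0
-/

set_option autoImplicit false

namespace Pool.Agent.Work.MP_f7ef37_lc.HL

open Pool.Agent.Work.MP_f7ef37_lc.Up Finset

namespace XLs0

open Classical in
theorem pig_sub {m n L : ℕ} (D : Data m n L) (bit : Fin m → ℕ → Bool) (be : (ℕ → Bool) → Fin m)
    (g : Fin n → ℕ) (N S k : ℕ) (hG : Grp N S g (univ : Finset (Fin n))) (hN : N ≤ k)
    (hB : Bits m k bit be) (a : ℕ → Bool) :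
    (Finset.univ.image (fun j : Fin n => ({(be a, j, true)} : Finset (Fin m × Fin n × Bool)))) ⊆
      (∅ : Line m n) ∪ Kk D bit 0 g univ k a ∅ := by
  intro T hT
  obtain ⟨c, -, rfl⟩ := Finset.mem_image.1 hT
  rw [Finset.empty_union]
  unfold Kk
  rw [Finset.mem_filter]
  refine ⟨Finset.mem_univ _, c, by simp,
    (hG.1 c (mem_univ _)).trans_le hN, fun _ => be a, ?_, ?_⟩
  · exact (Top_term D c (fun _ => be a)).symm
  · intro l _ hl
    exact hB a l hl

/-- the axiom and the weakening -/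
theorem two {m n t : ℕ} (P : Fin m) (Z : Line m n) (ht : 1 ≤ t) (hZ : Ok t Z)
    (hsub : (Finset.univ.image
      (fun j : Fin n => ({(P, j, true)} : Finset (Fin m × Fin n × Bool)))) ⊆ Z) :
    DS t (∅ : Set (Line m n)) {Z} 2 := by
  have hokP : Ok t (Finset.univ.image
      (fun j : Fin n => ({(P, j, true)} : Finset (Fin m × Fin n × Bool)))) := by
    intro T hT
    simp only [Finset.mem_image, Finset.mem_univ, true_and] at hT
    obtain ⟨j, rfl⟩ := hT
    simp [ht]
  refine ⟨[Z, Finset.univ.image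
      (fun j : Fin n => ({(P, j, true)} : Finset (Fin m × Fin n × Bool)))], ?_, ?_, ?_⟩
  · refine Der.cons _ _ (Der.cons _ _ Der.nil hokP (Or.inl (Or.inl ⟨P, rfl⟩))) hZ ?_
    refine Or.inr (Or.inl ⟨_, ?_, hsub⟩)
    right
    simp
  · intro F hF
    right
    simp only [Set.mem_singleton_iff] at hF
    simp [hF]
  · simp

end XLs0

/-- Item Ls0. -/
theorem pr_Ls0 (hOk : S_Ok) : S_Ls0 := by
  intro m n L t N S k D bit be g ht hG hN hB
  have h := pr_Fam pr_Mono pr_Trans (Fin k → Bool) m n t 2 ∅ univ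
    (fun a => (∅ : Line m n) ∪ Kk D bit 0 g univ k (ex a) ∅) (fun a _ => by
      refine XLs0.two (be (ex a)) _ ht ?_ (XLs0.pig_sub D bit be g N S k hG hN hB (ex a))
      rw [Finset.empty_union]
      exact (hOk m n L t 0 k D bit true ∅ g univ (ex a) ∅ (by omega)).2)
  refine pr_Mono m n t _ _ _ _ _ _ (Set.Subset.refl _) ?_ ?_ h
  · rintro F ⟨a, rfl⟩
    exact ⟨a, mem_univ _, rfl⟩
  · simp

end Pool.Agent.Work.MP_f7ef37_lc.HL
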