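import Pool.Agent.Work.MP_f7ef37_lc.HL.Stmts

/-!
# Item Lst: the last read
-/

set_option autoImplicit false

namespace Pool.Agent.Work.MP_f7ef37_lc.HL

open Pool.Agent.Work.MP_f7ef37_lc.Up Finset

namespace XLst

theorem term_update {m n L : ℕ} (D : Data m n L) (c : Fin n) (p : ℕ → Fin m) (r : ℕ)
    (P : Fin m) :
    term D c (Function.update p r P) (r + 1) = term D c p r ∪ {(P, node D c p r, true)} := by
  classical
  unfold term
  rw [range_add_one, image_insert, Function.update_self, ExtT_node D c p r _ r le_rfl,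
    insert_eq, union_comm]
  congr 1
  apply image_congr
  intro i hi
  have hi' : i < r := mem_range.1 hi
  simp only
  rw [Function.update_of_ne (by omega), ExtT_node D c p r _ i hi'.le]

end XLst

theorem pr_Lst (hOk : S_Ok) (hMerG : S_MerG) : S_Lst := by
  classical
  intro m n L t r N S k D bit be Γ w g Bk hn hr hrt hΓ hG hNk hB hBk
  have hone : ∀ a ∈ (univ : Finset (Fin k → Bool)),
      DS t {F | ∃ x : Fin n, F = Γ ∪ Cn D r w x} {Γ ∪ Kk D bit r g Bk k (ex a) ∅}
        (5 * n * U t m n) := by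
    intro a _
    refine hMerG m n L t r D w Γ (Γ ∪ Kk D bit r g Bk k (ex a) ∅) (be (ex a)) hn hr hrt hΓ ?_
      subset_union_left ?_
    · intro T hT
      rcases mem_union.1 hT with h | h
      · exact hΓ T h
      · exact (hOk m n L t r k D bit true ∅ g Bk (ex a) ∅ hrt).2 T h
    · intro x T hT
      refine mem_union_right _ ?_
      unfold Cn at hT
      obtain ⟨_, c, hc, p, rfl, hx⟩ := mem_filter.1 hT
      have hcB : c ∈ Bk := (hBk c).2 hc
      unfold Kk
      refine mem_filter.2 ⟨mem_univ _, c, ?_, ?_, Function.update p r (be (ex a)), ?_, ?_⟩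
      · rw [sdiff_empty]
        exact hcB
      · exact lt_of_lt_of_le (hG.1 c hcB) hNk
      · rw [XLst.term_update, hx]
      · intro l _ hl
        rw [Function.update_self]
        exact hB (ex a) l hl
  have hF := (pr_Fam pr_Mono pr_Trans) (Fin k → Bool) m n t (5 * n * U t m n)
    {F | ∃ x : Fin n, F = Γ ∪ Cn D r w x} univ
    (fun a => Γ ∪ Kk D bit r g Bk k (ex a) ∅) hone
  refine pr_Mono m n t _ _ _ _ _ _ subset_rfl ?_ ?_ hF
  · rintro F ⟨a, rfl⟩
    exact ⟨a, mem_univ _, rfl⟩
  · rw [card_univ, Fintype.card_fun, Fintype.card_bool, Fintype.card_fin]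

end Pool.Agent.Work.MP_f7ef37_lc.HL
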