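import Pool.Agent.Work.MP_f7ef37_lc.HL.Stmts

/-!
# Item MerG: merging with a general line
-/

set_option autoImplicit false

namespace Pool.Agent.Work.MP_f7ef37_lc.HL

open Pool.Agent.Work.MP_f7ef37_lc.Up Finset

theorem pr_MerG : S_MerG := by
  intro m n L t k D w Γ Z P hn hk hkt hΓ hZok hΓZ hTZ
  have ht : 1 ≤ t := by omega
  have h1 := @pr_Mono
  have h2 := @pr_Trans
  have h3 := @pr_One
  have h4 := pr_Fam pr_Mono pr_Trans
  have h5 := pr_Repl pr_Mono pr_Trans pr_One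
  have h6 := pr_Ext
  have h7 := pr_Cut
  have h8 := pr_Sz
  have h9 := pr_CnOk
  set A : Set (Line m n) := {F | ∃ x : Fin n, F = Γ ∪ Cn D k w x} with hA
  have hCn : ∀ x, Ok t (Cn D k w x) := fun x =>
    (h9 m n L t k 0 D w x x hk (by omega)).1
  have hFok : ∀ x : Fin n, Ok t (Z ∪ {{(P, x, false)}}) := fun x =>
    Mer_union_ok hZok (Mer_single_ok ht _)
  -- step 1
  have s1 : ∀ x ∈ (Finset.univ : Finset (Fin n)),
      DS t A {Z ∪ {{(P, x, false)}}} (U t m n * 2 + 1) := by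
    intro x _
    have hr := h5 m n t 2 A (Γ ∪ Cn D k w x) (Cn D k w x) (Z ∪ {{(P, x, false)}}) ⟨x, rfl⟩
      (Mer_union_ok hΓ (hCn x)) (hFok x) (by
        intro T hT K hK hTK
        have he := h6 m n t K (Z ∪ {{(P, x, false)}}) T P x ht hK (hFok x) hTK
          (mem_union_left _ (hTZ x T hT))
          (mem_union_right _ (mem_singleton_self _))
        exact h1 m n t 2 2 {K} (A ∪ {K}) _ _ Set.subset_union_right subset_rfl le_rfl he)
    have heq : ((Γ ∪ Cn D k w x) \ Cn D k w x) ∪ (Z ∪ {{(P, x, false)}})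
        = Z ∪ {{(P, x, false)}} := by
      apply union_eq_right.2
      intro T hT
      rw [mem_sdiff, mem_union] at hT
      rcases hT with ⟨h | h, h'⟩
      · exact mem_union_left _ (hΓZ h)
      · exact absurd h h'
    rw [heq] at hr
    refine h1 m n t _ _ A A _ _ subset_rfl subset_rfl ?_ hr
    have := (h8 m n t (Cn D k w x) (hCn x)).1
    omega
  have s1' := h4 (Fin n) m n t (U t m n * 2 + 1) A Finset.univ
    (fun x => Z ∪ {{(P, x, false)}}) s1
  -- step 2
  have s2 : DS t (A ∪ {G | ∃ x ∈ (Finset.univ : Finset (Fin n)), G = Z ∪ {{(P, x, false)}}})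
      {pig P} 1 :=
    h3 m n t _ _ (Mer_pig_ok ht P) (Or.inl (Or.inl ⟨P, rfl⟩))
  have s12 := h2 m n t _ _ _ _ _ s1' s2
  -- step 3
  have s3 := h5 m n t 1
    (A ∪ ({G | ∃ x ∈ (Finset.univ : Finset (Fin n)), G = Z ∪ {{(P, x, false)}}} ∪ {pig P}))
    (pig P) (pig P) Z (Or.inr (Or.inr rfl)) (Mer_pig_ok ht P) hZok (by
      intro T hT K hK hTK
      obtain ⟨x, _, rfl⟩ := mem_image.1 hT
      refine h7 m n t _ K (Z ∪ {{(P, x, false)}}) Z _ hK hZok (Or.inr rfl)
        (Or.inl (Or.inr (Or.inl ⟨x, mem_univ _, rfl⟩))) hTK ?_ ?_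
      · rw [Mer_negs]
        exact subset_union_right
      · rw [Mer_negs])
  have heq : (pig (n := n) P \ pig P) ∪ Z = Z := by
    rw [Finset.sdiff_self, empty_union]
  rw [heq] at s3
  have s123 := h2 m n t _ _ _ _ _ s12 s3
  refine h1 m n t _ _ A A _ _ subset_rfl Set.subset_union_right ?_ s123
  have hc := Mer_pig_card (n := n) P
  have hU : 1 ≤ U t m n := Nat.one_le_pow _ _ (Nat.succ_pos _)
  rw [card_univ, Fintype.card_fin]
  have : n * (U t m n * 2 + 1) + 1 + ((pig (n := n) P).card * 1 + 1)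
      ≤ n * (U t m n * 2 + 1) + 1 + (n + 1) := by omega
  refine this.trans ?_
  nlinarith

end Pool.Agent.Work.MP_f7ef37_lc.HL
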