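import Pool.Agent.Work.MP_f7ef37_lc.HL.Stmts

set_option autoImplicit false

namespace Pool.Agent.Work.MP_f7ef37_lc.HL

open Pool.Agent.Work.MP_f7ef37_lc.Up Finset

namespace XMin

theorem claim (hCz : S_Cz) (m n L t r i : ℕ) (D : Data m n L)
    (bit : Fin m → ℕ → Bool) (Γ : Line m n)
    (T : Finset (Fin n)) (v : Fin n → ℝ) (ht : r + 1 ≤ t) (hΓ : Ok t Γ) (hv : ∀ c, 0 ≤ v c) :
    ∀ d : ℕ, ∀ z : ℕ, z + d = T.card →
      DS t {F | ∃ (b : Bool) (R : Finset (Fin n)), R ⊆ T ∧ 2 * ∑ c ∈ R, v c ≤ ∑ c ∈ T, v c ∧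
          F = Γ ∪ Eb D bit r i b (T \ R)}
        {F | ∃ Y ∈ T.powersetCard z, F = Γ ∪ Eb D bit r i true Y}
        ((d + 1) * (2 ^ T.card * (6 * U t m n ^ 2))) := by
  classical
  set A : Set (Line m n) := {F | ∃ (b : Bool) (R : Finset (Fin n)), R ⊆ T ∧
    2 * ∑ c ∈ R, v c ≤ ∑ c ∈ T, v c ∧ F = Γ ∪ Eb D bit r i b (T \ R)} with hA
  intro d
  induction d with
  | zero =>
    intro z hz
    have hz' : z = T.card := by omega
    subst hz'
    refine ⟨[], Der.nil, ?_, Nat.zero_le _⟩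
    rintro F ⟨Y, hY, rfl⟩
    rw [Finset.powersetCard_self, Finset.mem_singleton] at hY
    left
    refine ⟨true, ∅, Finset.empty_subset _, ?_, ?_⟩
    · rw [Finset.sum_empty, mul_zero]
      exact Finset.sum_nonneg (fun c _ => hv c)
    · rw [hY, Finset.sdiff_empty]
  | succ d ih =>
    intro z hz
    have h7 := ih (z + 1) (by omega)
    have h8 : ∀ Y ∈ T.powersetCard z,
        DS t (A ∪ {F | ∃ Y ∈ T.powersetCard (z + 1), F = Γ ∪ Eb D bit r i true Y})
          {Γ ∪ Eb D bit r i true Y} (6 * U t m n ^ 2) := by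
      intro Y hY
      rw [Finset.mem_powersetCard] at hY
      have hsum : ∑ c ∈ T \ Y, v c + ∑ c ∈ Y, v c = ∑ c ∈ T, v c :=
        Finset.sum_sdiff hY.1
      by_cases hc : 2 * ∑ c ∈ T \ Y, v c ≤ ∑ c ∈ T, v c
      · refine ⟨[], Der.nil, ?_, Nat.zero_le _⟩
        rintro F hF
        rw [Set.mem_singleton_iff] at hF
        left
        left
        refine ⟨true, T \ Y, Finset.sdiff_subset, hc, ?_⟩
        rw [hF, Finset.sdiff_sdiff_eq_self hY.1]
      · have h9 := hCz m n L t r i D bit Γ T Y ht hΓ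
        refine pr_Mono m n t _ _ _ _ _ _ ?_ subset_rfl le_rfl h9
        intro F hF
        rcases hF with hF | hF
        · left
          rw [Set.mem_singleton_iff] at hF
          exact ⟨false, Y, hY.1, by linarith, hF⟩
        · right
          obtain ⟨c, hc, hFc⟩ := hF
          rw [Finset.mem_sdiff] at hc
          refine ⟨insert c Y, ?_, hFc⟩
          rw [Finset.mem_powersetCard]
          refine ⟨Finset.insert_subset hc.1 hY.1, ?_⟩
          rw [Finset.card_insert_of_notMem hc.2, hY.2]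
    have h9 := pr_Fam pr_Mono pr_Trans (Finset (Fin n)) m n t _ _ (T.powersetCard z)
      (fun Y => Γ ∪ Eb D bit r i true Y) h8
    have h10 := pr_Trans m n t _ _ _ _ _ h7 h9
    refine pr_Mono m n t _ _ _ _ _ _ subset_rfl Set.subset_union_right ?_ h10
    have h11 : (T.powersetCard z).card ≤ 2 ^ T.card := by
      rw [Finset.card_powersetCard]
      exact Nat.choose_le_two_pow _ _
    have h12 := Nat.mul_le_mul_right (6 * U t m n ^ 2) h11
    calc (d + 1) * (2 ^ T.card * (6 * U t m n ^ 2)) + (T.powersetCard z).card * (6 * U t m n ^ 2)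
        ≤ (d + 1) * (2 ^ T.card * (6 * U t m n ^ 2)) + 2 ^ T.card * (6 * U t m n ^ 2) :=
          Nat.add_le_add_left h12 _
      _ = (d + 1 + 1) * (2 ^ T.card * (6 * U t m n ^ 2)) := by ring

end XMin

open XMin in
theorem pr_Min (hCz : S_Cz) : S_Min := by
  classical
  intro m n L t r i D bit Γ T v ht hΓ hv
  have h := claim hCz m n L t r i D bit Γ T v ht hΓ hv T.card 0 (by omega)
  refine pr_Mono m n t _ _ _ _ _ _ subset_rfl ?_ le_rfl h
  rintro F hF
  rw [Set.mem_singleton_iff] at hF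
  refine ⟨∅, ?_, ?_⟩
  · rw [Finset.mem_powersetCard]
    exact ⟨Finset.empty_subset _, rfl⟩
  · rw [hF]
    refine (Finset.union_eq_left.2 ?_).symm
    intro T' hT'
    obtain ⟨_, c, hc, _⟩ := mem_filter.1 hT'
    exact absurd hc (Finset.notMem_empty c)

end Pool.Agent.Work.MP_f7ef37_lc.HL
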