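import Pool.Agent.Work.MP_f7ef37_lc.HL.Stmts

/-!
Block HL, item Nm: the arithmetic of the number of lines.
-/

set_option autoImplicit false

open Finset

namespace Pool.Agent.Work.MP_f7ef37_lc.HL

open Pool.Agent.Work.MP_f7ef37_lc.Up

namespace XNm

theorem CS_le (t m n S : ℕ) (hu : 1 ≤ U t m n) :
    CS t m n S ≤ 32 * (2 ^ S) ^ 5 * U t m n ^ 2 := by
  unfold CS CM
  set q := 2 ^ S with hq
  have hq1 : 1 ≤ q := Nat.one_le_two_pow
  have hSq : S ≤ q := Nat.lt_two_pow_self.le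
  have h4 : 2 ^ (4 * S) = q ^ 4 := by
    rw [hq, ← pow_mul, mul_comm]
  rw [h4]
  generalize U t m n = u at *
  have h5 : 4 * S + 1 ≤ 5 * q := by omega
  have h6 : 2 * q ^ 4 ≤ 2 * q ^ 5 * u ^ 2 := by
    have h7 : q ^ 4 ≤ q ^ 5 := Nat.pow_le_pow_right hq1 (by norm_num)
    have h8 : 1 ≤ u ^ 2 := Nat.one_le_pow _ _ hu
    calc 2 * q ^ 4 = 2 * q ^ 4 * 1 := by ring
      _ ≤ 2 * q ^ 5 * u ^ 2 := Nat.mul_le_mul (Nat.mul_le_mul_left _ h7) h8
  calc 2 * q ^ 4 + (4 * S + 1) * (q ^ 4 * (6 * u ^ 2))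
      ≤ 2 * q ^ 5 * u ^ 2 + (5 * q) * (q ^ 4 * (6 * u ^ 2)) :=
        Nat.add_le_add h6 (Nat.mul_le_mul_right _ h5)
    _ = 32 * q ^ 5 * u ^ 2 := by ring

theorem CC_le (t m n k S : ℕ) (hu : 1 ≤ U t m n) (hk : 2 ^ k ≤ m) :
    CC t m n k S ≤ 32 * m ^ 2 * ((2 ^ S) ^ 10 * U t m n ^ 2) := by
  unfold CC
  have h1 := CS_le t m n S hu
  have hk' : k ≤ m := (Nat.lt_two_pow_self.le).trans hk
  have h5 : 2 ^ (5 * S) = (2 ^ S) ^ 5 := by
    rw [← pow_mul, mul_comm]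
  rw [h5]
  calc k * (2 ^ k * (2 ^ S) ^ 5 * CS t m n S)
      ≤ m * (m * (2 ^ S) ^ 5 * (32 * (2 ^ S) ^ 5 * U t m n ^ 2)) := by
        gcongr
    _ = 32 * m ^ 2 * ((2 ^ S) ^ 10 * U t m n ^ 2) := by ring

theorem NT_le (t m n L k S : ℕ) (hu : 1 ≤ U t m n) (hk : 2 ^ k ≤ m) (hn : n ≤ m) (hL : L ≤ m)
    (hnL : n ^ L ≤ m) (hm : 1 ≤ m) (j : ℕ) :
    NT t m n L k S j ≤ 42 * (j + 1) * m ^ (2 * j + 2) * ((2 ^ S) ^ 10 * U t m n ^ 2) := by
  have hq1 : 1 ≤ 2 ^ S := Nat.one_le_two_pow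
  have hW : U t m n ≤ (2 ^ S) ^ 10 * U t m n ^ 2 := by
    calc U t m n = 1 * (U t m n * 1) := by ring
      _ ≤ (2 ^ S) ^ 10 * (U t m n * U t m n) :=
        Nat.mul_le_mul (Nat.one_le_pow _ _ hq1) (Nat.mul_le_mul_left _ hu)
      _ = (2 ^ S) ^ 10 * U t m n ^ 2 := by ring
  induction j with
  | zero =>
    have h1 := CC_le t m n k S hu hk
    have h2 : 2 ^ k * (5 * n * U t m n) ≤ m * (5 * m * ((2 ^ S) ^ 10 * U t m n ^ 2)) := by
      gcongr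
    unfold NT
    generalize (2 ^ S) ^ 10 * U t m n ^ 2 = W at *
    calc 2 ^ k * (5 * n * U t m n) + CC t m n k S
        ≤ m * (5 * m * W) + 32 * m ^ 2 * W := Nat.add_le_add h2 h1
      _ = 37 * (m ^ 2 * W) := by ring
      _ ≤ 42 * (m ^ 2 * W) := Nat.mul_le_mul_right _ (by norm_num)
      _ = 42 * (0 + 1) * m ^ (2 * 0 + 2) * W := by ring
  | succ j ih =>
    have h2 : n ^ L * (5 * n * U t m n) ≤ m * (5 * m * ((2 ^ S) ^ 10 * U t m n ^ 2)) := by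
      gcongr
    unfold NT
    generalize (2 ^ S) ^ 10 * U t m n ^ 2 = W at *
    have h3 : L * (n ^ L * NT t m n L k S j) ≤ m * (m * (42 * (j + 1) * m ^ (2 * j + 2) * W)) := by
      gcongr
    have h4 : m ^ 2 ≤ m ^ (2 * j + 4) := Nat.pow_le_pow_right hm (by omega)
    calc n ^ L * (5 * n * U t m n) + L * (n ^ L * NT t m n L k S j)
        ≤ m * (5 * m * W) + m * (m * (42 * (j + 1) * m ^ (2 * j + 2) * W)) :=
          Nat.add_le_add h2 h3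
      _ = 5 * (m ^ 2 * W) + 42 * (j + 1) * m ^ (2 * j + 4) * W := by ring
      _ ≤ 42 * (m ^ (2 * j + 4) * W) + 42 * (j + 1) * m ^ (2 * j + 4) * W := by
          gcongr
          norm_num
      _ = 42 * (j + 1 + 1) * m ^ (2 * (j + 1) + 2) * W := by ring

theorem U_le (t m n : ℕ) (hn : n ≤ m) (hm : 2 ≤ m) : U t m n ≤ m ^ (4 * t) := by
  unfold U
  rw [pow_mul]
  apply Nat.pow_le_pow_left
  have h1 : 2 * m * n + 1 ≤ 3 * m ^ 2 := by nlinarith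
  have h2 : 3 ≤ m ^ 2 := by nlinarith
  calc 2 * m * n + 1 ≤ 3 * m ^ 2 := h1
    _ ≤ m ^ 2 * m ^ 2 := Nat.mul_le_mul_right _ h2
    _ = m ^ 4 := by ring

end XNm

open XNm in
/-- Item Nm. -/
theorem pr_Nm : S_Nm := by
  intro m n L t N S j ht hn hL hnL hk hnS
  have hS : 1 ≤ S := by
    by_contra h
    have h0 : S = 0 := by omega
    rw [h0, mul_zero, mul_zero] at hnS
    omega
  have hnm : n ≤ m := (Nat.le_self_pow (by omega) n).trans hnL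
  have hm : 2 ≤ m := hn.trans hnm
  have hLm : L ≤ m :=
    (Nat.lt_two_pow_self.le).trans ((Nat.pow_le_pow_left hn L).trans hnL)
  have hu : 1 ≤ U t m n := by
    unfold U
    exact Nat.one_le_pow _ _ (by omega)
  have hq : 2 ≤ 2 ^ S := by
    calc 2 = 2 ^ 1 := by norm_num
      _ ≤ 2 ^ S := Nat.pow_le_pow_right (by norm_num) hS
  have h1 := CC_le t m n (N + j) S hu hk
  have h2 := NT_le t m n L (N + j) S hu hk hnm hLm hnL (by omega) (t - 2)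
  have h3 := U_le t m n hnm hm
  have hW1 : 1 ≤ (2 ^ S) ^ 10 * U t m n ^ 2 :=
    Nat.mul_pos (by positivity) (Nat.one_le_pow _ _ hu)
  have h4 : NT t m n L (N + j) S (t - 2) ≤ 42 * t * m ^ (2 * t) * ((2 ^ S) ^ 10 * U t m n ^ 2) := by
    refine h2.trans ?_
    apply Nat.mul_le_mul_right
    apply Nat.mul_le_mul
    · apply Nat.mul_le_mul_left
      omega
    · exact Nat.pow_le_pow_right (by omega) (by omega)
  have h5 : 2 * n ^ L + L * (n ^ L * NT t m n L (N + j) S (t - 2)) +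
      (2 ^ (N + j) * 2 + CC t m n (N + j) S) ≤
      80 * t * m ^ (2 * t + 2) * ((2 ^ S) ^ 10 * U t m n ^ 2) := by
    generalize (2 ^ S) ^ 10 * U t m n ^ 2 = W at *
    have e1 : L * (n ^ L * NT t m n L (N + j) S (t - 2)) ≤ m * (m * (42 * t * m ^ (2 * t) * W)) := by
      gcongr
    have e2 : m ≤ m ^ (2 * t + 2) * W := by
      calc m = m ^ 1 * 1 := by ring
        _ ≤ m ^ (2 * t + 2) * W :=
          Nat.mul_le_mul (Nat.pow_le_pow_right (by omega) (by omega)) hW1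
    have e3 : m ^ 2 * W ≤ m ^ (2 * t + 2) * W :=
      Nat.mul_le_mul_right _ (Nat.pow_le_pow_right (by omega) (by omega))
    calc 2 * n ^ L + L * (n ^ L * NT t m n L (N + j) S (t - 2)) +
        (2 ^ (N + j) * 2 + CC t m n (N + j) S)
        ≤ 2 * m + m * (m * (42 * t * m ^ (2 * t) * W)) + (m * 2 + 32 * m ^ 2 * W) := by
          gcongr
      _ = 4 * m + 42 * t * (m ^ (2 * t + 2) * W) + 32 * (m ^ 2 * W) := by ring
      _ ≤ 4 * (m ^ (2 * t + 2) * W) + 42 * t * (m ^ (2 * t + 2) * W) +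
          32 * (m ^ (2 * t + 2) * W) := by
          gcongr
      _ = (36 + 42 * t) * (m ^ (2 * t + 2) * W) := by ring
      _ ≤ (80 * t) * (m ^ (2 * t + 2) * W) := Nat.mul_le_mul_right _ (by omega)
      _ = 80 * t * m ^ (2 * t + 2) * W := by ring
  have h6 : 80 * t ^ 2 ≤ (m * 2 ^ S) ^ (4 + t) := by
    have e1 : 4 ≤ m * 2 ^ S := Nat.mul_le_mul hm hq
    have e2 : t ^ 2 ≤ 4 ^ t := by
      calc t ^ 2 ≤ (2 ^ t) ^ 2 := Nat.pow_le_pow_left Nat.lt_two_pow_self.le 2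
        _ = 4 ^ t := by
          rw [← pow_mul, mul_comm, pow_mul]
          norm_num
    calc 80 * t ^ 2 ≤ 4 ^ 4 * 4 ^ t := Nat.mul_le_mul (by norm_num) e2
      _ = 4 ^ (4 + t) := (pow_add 4 4 t).symm
      _ ≤ (m * 2 ^ S) ^ (4 + t) := Nat.pow_le_pow_left e1 _
  have h7 : m ^ (14 * t + 2) * (2 ^ S) ^ 10 ≤ (m * 2 ^ S) ^ (14 * t + 12) := by
    calc m ^ (14 * t + 2) * (2 ^ S) ^ 10 ≤ (m * 2 ^ S) ^ (14 * t + 2) * (m * 2 ^ S) ^ 10 := by
          apply Nat.mul_le_mul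
          · exact Nat.pow_le_pow_left (Nat.le_mul_of_pos_right _ (by positivity)) _
          · exact Nat.pow_le_pow_left (Nat.le_mul_of_pos_left _ (by omega)) _
      _ = (m * 2 ^ S) ^ (14 * t + 12) := by rw [← pow_add]
  calc (2 * n ^ L + L * (n ^ L * NT t m n L (N + j) S (t - 2)) +
        (2 ^ (N + j) * 2 + CC t m n (N + j) S)) * (t * U t m n)
      ≤ (80 * t * m ^ (2 * t + 2) * ((2 ^ S) ^ 10 * U t m n ^ 2)) * (t * U t m n) :=
        Nat.mul_le_mul_right _ h5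
    _ = (80 * t ^ 2) * (m ^ (2 * t + 2) * (2 ^ S) ^ 10 * U t m n ^ 3) := by ring
    _ ≤ (m * 2 ^ S) ^ (4 + t) * (m ^ (2 * t + 2) * (2 ^ S) ^ 10 * (m ^ (4 * t)) ^ 3) := by
        gcongr
    _ = (m * 2 ^ S) ^ (4 + t) * (m ^ (14 * t + 2) * (2 ^ S) ^ 10) := by ring
    _ ≤ (m * 2 ^ S) ^ (4 + t) * (m * 2 ^ S) ^ (14 * t + 12) := Nat.mul_le_mul_left _ h7
    _ = (m * 2 ^ S) ^ (4 + t + (14 * t + 12)) := by rw [← pow_add]
    _ ≤ (m * 2 ^ S) ^ (32 * t) :=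
        Nat.pow_le_pow_right (Nat.mul_pos (by omega) (by positivity)) (by omega)

end Pool.Agent.Work.MP_f7ef37_lc.HL
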