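import Pool.Agent.Work.MP_f7ef37_lc.HL.Stmts

set_option autoImplicit false

namespace Pool.Agent.Work.MP_f7ef37_lc.HL

open Pool.Agent.Work.MP_f7ef37_lc.Up Finset

open Classical in
theorem pr_Ok : S_Ok := by
  intro m n L t r i D bit b Z g Bk a R hr
  constructor
  · intro T hT
    obtain ⟨c, -, p, rfl, -⟩ := (mem_filter.1 hT).2
    exact CnOk_term D c p (by omega) hr
  · intro T hT
    obtain ⟨c, -, -, p, rfl, -⟩ := (mem_filter.1 hT).2
    exact CnOk_term D c p (by omega) hr

end Pool.Agent.Work.MP_f7ef37_lc.HL
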