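import Pool.Agent.Work.MP_f7ef37_lc.HL.Stmts

set_option autoImplicit false

open Finset

namespace Pool.Agent.Work.MP_f7ef37_lc.HL

open Pool.Agent.Work.MP_f7ef37_lc.Up

namespace XPr

/-- The natural logarithm of `m` is less than `(Nat.log b m + 1) log b`. -/
lemma log_lt (b m : ℕ) (hb : 1 < b) (hm : 0 < m) :
    Real.log m < ((Nat.log b m : ℝ) + 1) * Real.log b := by
  have h : m < b ^ (Nat.log b m + 1) := Nat.lt_pow_succ_log_self hb m
  have h2 : (m : ℝ) < (b : ℝ) ^ (Nat.log b m + 1) := by exact_mod_cast h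
  have h3 : Real.log m < Real.log ((b : ℝ) ^ (Nat.log b m + 1)) :=
    Real.log_lt_log (by exact_mod_cast hm) h2
  rw [Real.log_pow] at h3
  push_cast at h3
  exact h3

/-- The real estimate for the number of holes in a group. -/
lemma real_bound (t : ℕ) (ht : 1 ≤ t) (n L N l lam S c2 : ℝ) (hn : 0 ≤ n) (hl : 0 < l)
    (hlam : 0 < lam) (_hc2 : 0 < c2) (hL : lam ≤ 2 * l * L) (hN : lam ≤ 8 * c2 * N)
    (hLp : 0 < L) (hNp : 0 < N)
    (hS : S ≤ 1 + n / (L ^ (t - 1) * N)) :
    S ≤ 1 + 4 * c2 * 2 ^ t * n * l ^ (t - 1) / lam ^ t := by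
  have h1 : n / (L ^ (t - 1) * N) ≤ 4 * c2 * 2 ^ t * n * l ^ (t - 1) / lam ^ t := by
    obtain ⟨s, rfl⟩ : ∃ s, t = s + 1 := ⟨t - 1, by omega⟩
    simp only [Nat.add_sub_cancel]
    rw [div_le_div_iff₀ (by positivity) (by positivity)]
    have h2 : lam ^ s ≤ (2 * l * L) ^ s := pow_le_pow_left₀ hlam.le hL s
    have h3 : lam ^ (s + 1) ≤ (2 * l * L) ^ s * (8 * c2 * N) := by
      rw [pow_succ]
      exact mul_le_mul h2 hN hlam.le (by positivity)
    calc n * lam ^ (s + 1) ≤ n * ((2 * l * L) ^ s * (8 * c2 * N)) :=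
          mul_le_mul_of_nonneg_left h3 hn
      _ = 4 * c2 * 2 ^ (s + 1) * n * l ^ s * (L ^ s * N) := by
          rw [mul_pow, mul_pow]; ring
  linarith

end XPr

open XPr in
theorem pr_Pr : S_Pr := by
  intro t n m ht hn hm
  have hm256 : 256 ≤ m := by nlinarith
  have hn1 : 1 < n := by omega
  have hm0 : m ≠ 0 := by omega
  set L := Nat.log n m with hL
  have hL2 : 2 ≤ L := by
    rw [hL]
    exact Nat.le_log_of_pow_le hn1 hm
  have hnL : n ^ L ≤ m := Nat.pow_log_le_self n hm0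
  set M' := Nat.log 2 m with hM'
  have hM8 : 8 ≤ M' := by
    rw [hM']
    exact Nat.le_log_of_pow_le (by norm_num) (by norm_num; exact hm256)
  have h2M : 2 ^ M' ≤ m := Nat.pow_log_le_self 2 hm0
  set N := M' / 4 with hN
  have hN2 : 2 ≤ N := by omega
  set K := L ^ (t - 1) * N with hK
  have hLt : 1 ≤ L ^ (t - 1) := Nat.one_le_pow _ _ (by omega)
  have hK2 : 2 ≤ K := by
    rw [hK]; nlinarith
  set S := n / K + 1 with hS
  have hS1 : 1 ≤ S := by rw [hS]; exact Nat.succ_le_succ (Nat.zero_le _)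
  have hSn : S ≤ n := by
    have : n / K ≤ n / 2 := Nat.div_le_div_left hK2 (by norm_num)
    omega
  set j := Nat.log 2 (2 * S) + 1 with hj
  have hj1 : 2 * S < 2 ^ j := Nat.lt_pow_succ_log_self (by norm_num) _
  have hj2 : 2 ^ j ≤ 4 * n := by
    have h1 : 2 ^ (Nat.log 2 (2 * S)) ≤ 2 * S := Nat.pow_log_le_self 2 (by omega)
    rw [hj, pow_succ]
    omega
  refine ⟨L, N, S, j, by omega, hnL, ?_, hj1, ?_, ?_⟩
  · have h4 : (2 ^ N) ^ 4 ≤ m := by
      rw [← pow_mul]
      exact le_trans (Nat.pow_le_pow_right (by norm_num) (by omega)) h2M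
    have h5 : (2 ^ (N + j)) ^ 4 ≤ m ^ 4 := by
      have h6 : (2 ^ (N + j)) ^ 4 = (2 ^ N) ^ 4 * (2 ^ j) ^ 4 := by
        rw [pow_add, mul_pow]
      have h7 : (2 ^ j) ^ 4 ≤ 256 * (n ^ 2) ^ 2 := by
        calc (2 ^ j) ^ 4 ≤ (4 * n) ^ 4 := Nat.pow_le_pow_left hj2 4
          _ = 256 * (n ^ 2) ^ 2 := by ring
      have h8 : 256 * (n ^ 2) ^ 2 ≤ m * m ^ 2 :=
        Nat.mul_le_mul hm256 (Nat.pow_le_pow_left hm 2)
      calc (2 ^ (N + j)) ^ 4 = (2 ^ N) ^ 4 * (2 ^ j) ^ 4 := h6
        _ ≤ m * (m * m ^ 2) := Nat.mul_le_mul h4 (le_trans h7 h8)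
        _ = m ^ 4 := by ring
    exact (Nat.pow_le_pow_iff_left (by norm_num)).mp h5
  · have h1 : n < (n / K + 1) * K := by
      have h2 := Nat.div_add_mod n K
      have h3 := Nat.mod_lt n (show 0 < K by omega)
      nlinarith
    calc n ≤ (n / K + 1) * K := h1.le
      _ = L ^ (t - 1) * (N * S) := by rw [hK, hS, mul_comm, mul_assoc]
  · -- the real estimate
    have hmR : (256 : ℝ) ≤ m := by exact_mod_cast hm256
    have hmpos : (0 : ℝ) < m := by linarith
    have hl : 0 < Real.log (n : ℝ) := Real.log_pos (by exact_mod_cast hn1)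
    have hlam : 0 < Real.log (m : ℝ) := Real.log_pos (by linarith)
    have hc : 0 < Real.log (2 : ℝ) := Real.log_pos (by norm_num)
    have hc7 : Real.log (2 : ℝ) < 0.7 := by
      have := Real.log_two_lt_d9
      linarith
    have e1 : Real.log m < ((L : ℝ) + 1) * Real.log n := log_lt n m hn1 (by omega)
    have e2 : Real.log m < ((M' : ℝ) + 1) * Real.log 2 := by
      have := log_lt 2 m (by norm_num) (by omega)
      exact_mod_cast this
    have hL2R : (2 : ℝ) ≤ L := by exact_mod_cast hL2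
    have hN2R : (2 : ℝ) ≤ N := by exact_mod_cast hN2
    have hMN : (M' : ℝ) ≤ 4 * N + 3 := by
      have : M' ≤ 4 * N + 3 := by omega
      exact_mod_cast this
    have f1 : Real.log m ≤ 2 * Real.log n * L := by nlinarith
    have f2 : Real.log m ≤ 8 * Real.log 2 * N := by nlinarith
    have hSr : (S : ℝ) ≤ 1 + (n : ℝ) / ((L : ℝ) ^ (t - 1) * N) := by
      have h1 : ((n / K : ℕ) : ℝ) ≤ (n : ℝ) / (K : ℝ) := Nat.cast_div_le
      rw [hS]
      push_cast
      have h2 : ((K : ℕ) : ℝ) = (L : ℝ) ^ (t - 1) * N := by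
        rw [hK]; push_cast; ring
      rw [h2] at h1
      linarith
    have hS2 := real_bound t ht n L N (Real.log n) (Real.log m) S (Real.log 2) (by positivity) hl hlam
      hc f1 f2 (by linarith) (by linarith) hSr
    set Q : ℝ := 2 ^ t * n * Real.log n ^ (t - 1) / Real.log m ^ t with hQ
    have hQ0 : 0 ≤ Q := by rw [hQ]; positivity
    have hS3 : (S : ℝ) ≤ 1 + 4 * Real.log 2 * Q := by
      calc (S : ℝ) ≤ _ := hS2
        _ = 1 + 4 * Real.log 2 * Q := by rw [hQ]; ring
    have g1 : (2 : ℝ) ^ (32 * t * S) ≤ (m : ℝ) ^ (4 * t) * Real.exp (64 * t * Q) := by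
      have h1 : (2 : ℝ) ^ (32 * t * S) = Real.exp (32 * t * S * Real.log 2) := by
        have : (32 * t * S * Real.log 2 : ℝ) = ((32 * t * S : ℕ) : ℝ) * Real.log 2 := by
          push_cast; ring
        rw [this, ← Real.log_pow, Real.exp_log (by positivity)]
      have h2 : (32 * t * S * Real.log 2 : ℝ) ≤ 32 * t * Real.log 2 + 64 * t * Q := by
        have ht0 : (0 : ℝ) ≤ t := by positivity
        have h3 : (S : ℝ) * Real.log 2 ≤ Real.log 2 + 2 * Q := by
          calc (S : ℝ) * Real.log 2 ≤ (1 + 4 * Real.log 2 * Q) * Real.log 2 :=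
                mul_le_mul_of_nonneg_right hS3 hc.le
            _ = Real.log 2 + 4 * (Real.log 2 * Real.log 2) * Q := by ring
            _ ≤ Real.log 2 + 2 * Q := by
                have h4 : 4 * (Real.log 2 * Real.log 2) ≤ 2 := by nlinarith
                have := mul_le_mul_of_nonneg_right h4 hQ0
                linarith
        have := mul_le_mul_of_nonneg_left h3 (show (0 : ℝ) ≤ 32 * t by positivity)
        calc (32 * t * S * Real.log 2 : ℝ) = 32 * t * (S * Real.log 2) := by ring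
          _ ≤ 32 * t * (Real.log 2 + 2 * Q) := this
          _ = 32 * t * Real.log 2 + 64 * t * Q := by ring
      have h5 : Real.exp (32 * t * Real.log 2) ≤ (m : ℝ) ^ (4 * t) := by
        have h6 : Real.exp (32 * t * Real.log 2) = ((2 : ℝ) ^ 8) ^ (4 * t) := by
          have : (32 * t * Real.log 2 : ℝ) = ((8 * (4 * t) : ℕ) : ℝ) * Real.log 2 := by
            push_cast; ring
          rw [this, ← Real.log_pow, Real.exp_log (by positivity), pow_mul]
        rw [h6]
        exact pow_le_pow_left₀ (by positivity) (by norm_num; exact hm256) _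
      rw [h1]
      calc Real.exp (32 * t * S * Real.log 2)
          ≤ Real.exp (32 * t * Real.log 2 + 64 * t * Q) := Real.exp_le_exp.mpr h2
        _ = Real.exp (32 * t * Real.log 2) * Real.exp (64 * t * Q) := Real.exp_add _ _
        _ ≤ (m : ℝ) ^ (4 * t) * Real.exp (64 * t * Q) :=
            mul_le_mul_of_nonneg_right h5 (Real.exp_pos _).le
    have g2 : (64 * t * 2 ^ t * n * Real.log n ^ (t - 1) / Real.log m ^ t : ℝ) = 64 * t * Q := by
      rw [hQ]; ring
    rw [g2]
    push_cast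
    calc ((m : ℝ) * 2 ^ S) ^ (32 * t) = (m : ℝ) ^ (32 * t) * 2 ^ (32 * t * S) := by
          rw [mul_pow, ← pow_mul]
          congr 2
          ring
      _ ≤ (m : ℝ) ^ (32 * t) * ((m : ℝ) ^ (4 * t) * Real.exp (64 * t * Q)) :=
          mul_le_mul_of_nonneg_left g1 (by positivity)
      _ = (m : ℝ) ^ (36 * t) * Real.exp (64 * t * Q) := by
          rw [← mul_assoc, ← pow_add]
          congr 2
          ring

end Pool.Agent.Work.MP_f7ef37_lc.HL
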