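import Pool.Agent.Work.MP_f7ef37_lc.HL.Stmts

/-!
Item [f7ef37 HL Rec]: the recursion over the levels.
-/

set_option autoImplicit false

open Finset

namespace Pool.Agent.Work.MP_f7ef37_lc.HL

open Pool.Agent.Work.MP_f7ef37_lc.Up Finset

theorem pr_Rec (hLst : S_Lst) (hChn : S_Chn) : S_Rec := by
  have h1 : Up.S_Mono := Up.pr_Mono
  have h2 : Up.S_Trans := Up.pr_Trans
  have h3 : Up.S_Fam := Up.pr_Fam Up.pr_Mono Up.pr_Trans
  intro m n L t N S j j' D bit be hn hj' hSj hbits hBk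
  induction j' with
  | zero =>
    intro Γ w hΓ
    obtain ⟨Bk, g, hB, hg⟩ := hBk w
    have hr : 1 ≤ t - 1 := by omega
    have hrt : (t - 1) + 1 ≤ t := by omega
    have e1 := hLst m n L t (t - 1) N S (N + j) D bit be Γ w g Bk hn hr hrt hΓ hg
      (Nat.le_add_right N j) hbits hB
    have e2 := hChn m n L t (t - 1) N S j D bit Γ g Bk hrt hΓ hg hSj
    have e3 := h2 m n t _ _ _ _ {Γ} e1
      (h1 m n t _ _ _ _ _ _ (Set.subset_union_right) (le_refl _) (le_refl _) e2)
    exact h1 m n t _ _ _ _ _ _ (le_refl _) (Set.subset_union_right) (le_refl _) e3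
  | succ j' ih =>
    intro Γ w hΓ
    have ih' := ih (by omega)
    have hk : t - 1 - j' = (t - 1 - (j' + 1)) + 1 := by omega
    rw [hk] at ih'
    have e1 := h3 (Fin L → Fin n) m n t (5 * n * U t m n)
      {F | ∃ x : Fin n, F = Γ ∪ Cn D (t - 1 - (j' + 1)) w x}
      Finset.univ (fun X => Ctx D Γ (t - 1 - (j' + 1)) w X L)
      (fun X _ => Up.hMer m n L t (t - 1 - (j' + 1)) D w Γ X hn (by omega) (by omega) hΓ)
    have e2 := Up.hStB m n L t (t - 1 - (j' + 1)) (NT t m n L (N + j) S j') D w Γ (by omega)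
      (by omega) hΓ (fun Γ' w' hΓ' => ih' Γ' w' hΓ')
    have e3 := h2 m n t _ _ _ _ {Γ} e1
      (h1 m n t _ _ _ _ _ _ (by
        intro F hF
        obtain ⟨X, rfl⟩ := hF
        exact Or.inr ⟨X, Finset.mem_univ X, rfl⟩) (le_refl _) (le_refl _) e2)
    refine h1 m n t _ _ _ _ _ _ (le_refl _) (Set.subset_union_right) ?_ e3
    rw [Finset.card_univ, Fintype.card_fun, Fintype.card_fin, Fintype.card_fin]
    exact le_refl _

end Pool.Agent.Work.MP_f7ef37_lc.HL
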