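import Pool.Agent.Work.MP_f7ef37_lc.HL.Stmts

set_option autoImplicit false

namespace Pool.Agent.Work.MP_f7ef37_lc.HL

open Pool.Agent.Work.MP_f7ef37_lc.Up Finset

open Classical in
theorem pr_Stp (hOk : S_Ok) (hMin : S_Min) (hInc : S_Inc) (hWt : S_Wt) : S_Stp := by
  intro m n L t r i N S D bit Γ g Bk R a ht hΓ hg hR
  have okU : ∀ {F G : Line m n}, Ok t F → Ok t G → Ok t (F ∪ G) := by
    intro F G hF hG T hT
    rcases mem_union.1 hT with h | h
    · exact hF T h
    · exact hG T h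
  obtain ⟨hT4, hR'⟩ := hWt n N S i g Bk R hg hR
  set T : Finset (Fin n) := R ∪ Bk.filter (fun c => g c = i) with hT
  set v : Fin n → ℝ := fun c => wt N (i + 1) (g c) with hv
  have hv0 : ∀ c, 0 ≤ v c := by
    intro c
    simp only [hv, wt]
    positivity
  have okK : Ok t (Kk D bit r g Bk i a R) :=
    (hOk m n L t r i D bit true ∅ g Bk a R ht).2
  have okE : ∀ b Z, Ok t (Eb D bit r i b Z) := fun b Z =>
    (hOk m n L t r i D bit b Z g Bk a R ht).1
  have okΓ' : Ok t (Γ ∪ Kk D bit r g Bk i a R) := okU hΓ okK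
  set A : Set (Line m n) := {F | ∃ (b : Bool) (R' : Finset (Fin n)), R' ∈ Rf N S g Bk (i + 1) ∧
      F = Γ ∪ Kk D bit r g Bk (i + 1) (Function.update a i b) R'} with hA
  -- the lines of the minority lemma
  set good : Finset (Bool × Finset (Fin n)) :=
    (univ ×ˢ T.powerset).filter (fun q => 2 * ∑ c ∈ q.2, v c ≤ ∑ c ∈ T, v c) with hgood
  have s1 := pr_Fam pr_Mono pr_Trans (Bool × Finset (Fin n)) m n t 1 A good
    (fun q => (Γ ∪ Kk D bit r g Bk i a R) ∪ Eb D bit r i q.1 (T \ q.2)) (by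
      rintro ⟨b, R'⟩ hq
      obtain ⟨hq1, hq2⟩ := mem_filter.1 hq
      have hR'T : R' ⊆ T := mem_powerset.1 (mem_product.1 hq1).2
      refine pr_One m n t A _ (okU okΓ' (okE _ _)) (Or.inr (Or.inl
        ⟨Γ ∪ Kk D bit r g Bk (i + 1) (Function.update a i b) R', ⟨b, R', hR' R' hR'T hq2, rfl⟩, ?_⟩))
      have h1 := hInc m n L r i D bit g Bk R R' a (Function.update a i b)
        (fun l hl => Function.update_of_ne (by omega) _ _)
      rw [Function.update_self] at h1
      intro T' hT'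
      rcases mem_union.1 hT' with h | h
      · exact mem_union_left _ (mem_union_left _ h)
      · rcases mem_union.1 (h1 h) with h | h
        · exact mem_union_left _ (mem_union_right _ h)
        · exact mem_union_right _ h)
  have s2 := hMin m n L t r i D bit (Γ ∪ Kk D bit r g Bk i a R) T v ht okΓ' hv0
  have s2' : DS t (A ∪ {G | ∃ q ∈ good, G = (Γ ∪ Kk D bit r g Bk i a R) ∪
      Eb D bit r i q.1 (T \ q.2)}) {Γ ∪ Kk D bit r g Bk i a R} (CM t m n S) := by
    refine pr_Mono m n t _ _ _ _ _ _ ?_ subset_rfl ?_ s2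
    · rintro F ⟨b, R', h1, h2, rfl⟩
      right
      exact ⟨(b, R'), mem_filter.2 ⟨mem_product.2 ⟨mem_univ _, mem_powerset.2 h1⟩, h2⟩, rfl⟩
    · unfold CM
      refine Nat.mul_le_mul (by omega) (Nat.mul_le_mul_right _ ?_)
      exact Nat.pow_le_pow_right (by norm_num) hT4
  have s3 := pr_Trans m n t _ _ _ _ _ s1 s2'
  refine pr_Mono m n t _ _ _ _ _ _ subset_rfl Set.subset_union_right ?_ s3
  unfold CS
  refine Nat.add_le_add_right ?_ _
  rw [mul_one]
  calc good.card ≤ ((univ : Finset Bool) ×ˢ T.powerset).card := card_filter_le _ _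
    _ = 2 * 2 ^ T.card := by
      rw [card_product, card_powerset]
      simp
    _ ≤ 2 * 2 ^ (4 * S) := Nat.mul_le_mul_left _ (Nat.pow_le_pow_right (by norm_num) hT4)

end Pool.Agent.Work.MP_f7ef37_lc.HL
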