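import Pool.Agent.Work.MP_f7ef37_lc.HL.Stmts

set_option autoImplicit false

namespace Pool.Agent.Work.MP_f7ef37_lc.HL

open Pool.Agent.Work.MP_f7ef37_lc.Up Finset

open Classical in
theorem pr_Tot (hRec : S_Rec) (hLs0 : S_Ls0) (hChn : S_Chn) : S_Tot := by
  intro m n L t N S j D bit be hn ht hj hbits hB
  let c0 : Fin n := ⟨0, by omega⟩
  let w : ℕ → Fin L := fun i => D.dig c0 i
  have hok : Ok t (∅ : Line m n) := fun T hT => absurd hT (Finset.notMem_empty T)
  by_cases ht1 : t = 1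
  · subst ht1
    obtain ⟨Bk, g, hBk, hg⟩ := hB w
    have hBu : Bk = univ := by
      ext c
      refine ⟨fun _ => mem_univ _, fun _ => (hBk c).2 ?_⟩
      intro i hi
      exact absurd hi (Nat.not_lt_zero i)
    subst hBu
    have h1 := hLs0 m n L 1 N S (N + j) D bit be g le_rfl hg (by omega) hbits
    have h2 := hChn m n L 1 0 N S j D bit ∅ g univ (by omega) hok hg hj
    have h3 := pr_Trans m n 1 _ _ _ _ {∅} h1
      (pr_Mono m n 1 _ _ _ (∅ ∪ {F | ∃ a : Fin (N + j) → Bool,
        F = ∅ ∪ Kk D bit 0 g univ (N + j) (ex a) ∅}) _ {∅} Set.subset_union_right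
        (subset_refl _) (le_refl _) h2)
    refine pr_Mono m n 1 _ _ _ _ _ _ (subset_refl _) (Set.subset_union_right) ?_ h3
    omega
  · have h1 : DS t (∅ : Set (Line m n))
        {G | ∃ X ∈ (Finset.univ : Finset (Fin L → Fin n)), G = Ctx D ∅ 0 w X L}
        ((Finset.univ : Finset (Fin L → Fin n)).card * 2) :=
      pr_Fam pr_Mono pr_Trans (Fin L → Fin n) m n t _ _ Finset.univ (fun X => Ctx D ∅ 0 w X L)
        (fun X _ => pr_Top m n L t D w X ht)
    have h2 := hStB m n L t 0 (NT t m n L (N + j) S (t - 2)) D w ∅ (by omega) (by omega) hok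
      (fun Γ' w' hΓ' => by
        have h := hRec m n L t N S j (t - 2) D bit be hn (by omega) hj hbits hB Γ' w' hΓ'
        rwa [show t - 1 - (t - 2) = 0 + 1 by omega] at h)
    have h3 := pr_Trans m n t _ _ _ _ {∅} h1
      (pr_Mono m n t _ _ _ (∅ ∪
        {G | ∃ X ∈ (Finset.univ : Finset (Fin L → Fin n)), G = Ctx D ∅ 0 w X L})
        _ {∅} (by
          rintro F ⟨X, rfl⟩
          exact Or.inr ⟨X, Finset.mem_univ _, rfl⟩) (subset_refl _) (le_refl _) h2)
    refine pr_Mono m n t _ _ _ _ _ _ (subset_refl _) (Set.subset_union_right) ?_ h3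
    rw [Finset.card_univ, Fintype.card_fun, Fintype.card_fin, Fintype.card_fin]
    omega

end Pool.Agent.Work.MP_f7ef37_lc.HL
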