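import Pool.Agent.Work.MP_f7ef37_lc.HL.Stmts

/-!
# Block HL, item We: the exceptional sets at the first and at the last stage
-/

set_option autoImplicit false

open Finset

namespace Pool.Agent.Work.MP_f7ef37_lc.HL

open Pool.Agent.Work.MP_f7ef37_lc.Up Finset

namespace XWe

theorem one_le_wt (N i g : ℕ) : 1 ≤ wt N i g := by
  unfold wt
  exact one_le_pow₀ (by norm_num)

theorem Wb_le (N S : ℕ) : ∀ i, Wb N S i ≤ 2 * (S : ℝ) := by
  have hS : (0 : ℝ) ≤ (S : ℝ) := Nat.cast_nonneg S
  intro i
  induction i with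
  | zero =>
    change (0 : ℝ) ≤ 2 * (S : ℝ)
    linarith
  | succ i ih =>
    change (if i < N then 3 / 4 * Wb N S i + S / 2 else Wb N S i / 2) ≤ 2 * (S : ℝ)
    split_ifs <;> linarith

theorem Wb_add (N S : ℕ) : ∀ j, Wb N S (N + j) ≤ 2 * (S : ℝ) / 2 ^ j := by
  intro j
  induction j with
  | zero =>
    have := Wb_le N S N
    simpa using this
  | succ j ih =>
    have h1 : Wb N S (N + (j + 1)) = Wb N S (N + j) / 2 := by
      change (if N + j < N then 3 / 4 * Wb N S (N + j) + S / 2 else Wb N S (N + j) / 2) =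
        Wb N S (N + j) / 2
      exact if_neg (by omega)
    rw [h1, pow_succ, ← div_div]
    exact div_le_div_of_nonneg_right ih (by norm_num)

end XWe

/-- Item We. -/
theorem pr_We : S_We := by
  intro n N S j g Bk hS
  refine ⟨fun R hR => ?_, ?_⟩
  · unfold Rf at hR
    rw [Finset.mem_filter] at hR
    by_contra hne
    obtain ⟨c, hc⟩ := Finset.nonempty_iff_ne_empty.2 hne
    have h1 : wt N (N + j) (g c) ≤ ∑ c ∈ R, wt N (N + j) (g c) :=
      Finset.single_le_sum (f := fun c => wt N (N + j) (g c))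
        (fun c _ => le_trans zero_le_one (XWe.one_le_wt N (N + j) (g c))) hc
    have h2 := XWe.one_le_wt N (N + j) (g c)
    have h3 := XWe.Wb_add N S j
    have h4 : (2 * (S : ℝ)) / 2 ^ j < 1 := by
      rw [div_lt_one (by positivity)]
      exact_mod_cast hS
    have h5 := hR.2.2
    linarith
  · unfold Rf
    rw [Finset.mem_filter]
    refine ⟨Finset.empty_mem_powerset _, fun c hc => absurd hc (Finset.notMem_empty c), ?_⟩
    rw [Finset.sum_empty]
    exact le_refl (0 : ℝ)

end Pool.Agent.Work.MP_f7ef37_lc.HL
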