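import Pool.Agent.Work.MP_f7ef37_lc.HL.Stmts

/-!
# Item Wt of block HL: the weights
-/

set_option autoImplicit false

open Finset

namespace Pool.Agent.Work.MP_f7ef37_lc.HL

open Pool.Agent.Work.MP_f7ef37_lc.Up

namespace XWt

lemma one_le_wt (N i g : ℕ) : (1 : ℝ) ≤ wt N i g := by
  unfold wt
  exact one_le_pow₀ (by norm_num)

lemma Wb_le (N S : ℕ) : ∀ i : ℕ, 0 ≤ Wb N S i ∧ Wb N S i ≤ 2 * S
  | 0 => by
    constructor
    · simp [Wb]
    · simp [Wb]
  | i + 1 => by
    obtain ⟨h0, h1⟩ := Wb_le N S i
    have hS : (0 : ℝ) ≤ S := Nat.cast_nonneg S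
    unfold Wb
    split_ifs
    · constructor
      · positivity
      · linarith
    · constructor
      · positivity
      · linarith

/-- the weight of the set at the next stage -/
lemma sum_le (n N S i : ℕ) (g : Fin n → ℕ) (Bk R : Finset (Fin n)) (hG : Grp N S g Bk)
    (hR : R ∈ Rf N S g Bk i) :
    ∑ c ∈ R ∪ Bk.filter (fun c => g c = i), wt N (i + 1) (g c) ≤ 2 * Wb N S (i + 1) := by
  classical
  unfold Rf at hR
  rw [Finset.mem_filter, Finset.mem_powerset] at hR
  obtain ⟨hRB, hlt, hw⟩ := hR
  by_cases hi : i < N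
  · have hdis : Disjoint R (Bk.filter (fun c => g c = i)) := by
      rw [Finset.disjoint_left]
      intro c hc hc'
      have h1 := hlt c hc
      have h2 := (Finset.mem_filter.1 hc').2
      omega
    rw [Finset.sum_union hdis]
    have e1 : ∑ c ∈ R, wt N (i + 1) (g c) = 3 / 2 * ∑ c ∈ R, wt N i (g c) := by
      rw [Finset.mul_sum]
      refine Finset.sum_congr rfl fun c hc => ?_
      have h1 := hlt c hc
      unfold wt
      have h2 : min (i + 1) N - 1 - g c = (min i N - 1 - g c) + 1 := by
        rw [Nat.min_eq_left (by omega), Nat.min_eq_left (by omega)]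
        omega
      rw [h2, pow_succ]
      ring
    have e2 : ∑ c ∈ Bk.filter (fun c => g c = i), wt N (i + 1) (g c) ≤ S := by
      have e3 : ∑ c ∈ Bk.filter (fun c => g c = i), wt N (i + 1) (g c) =
          ∑ c ∈ Bk.filter (fun c => g c = i), (1 : ℝ) := by
        refine Finset.sum_congr rfl fun c hc => ?_
        have h2 := (Finset.mem_filter.1 hc).2
        unfold wt
        have h3 : min (i + 1) N - 1 - g c = 0 := by
          rw [Nat.min_eq_left (by omega)]
          omega
        rw [h3, pow_zero]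
      rw [e3, Finset.sum_const, nsmul_eq_mul, mul_one]
      exact_mod_cast hG.2 i
    have e4 : Wb N S (i + 1) = 3 / 4 * Wb N S i + S / 2 := by
      show (if i < N then 3 / 4 * Wb N S i + S / 2 else Wb N S i / 2) = _
      rw [if_pos hi]
    rw [e1, e4]
    linarith
  · have hemp : Bk.filter (fun c => g c = i) = ∅ := by
      rw [Finset.filter_eq_empty_iff]
      intro c hc hgc
      have := hG.1 c hc
      omega
    rw [hemp, Finset.union_empty]
    have e1 : ∑ c ∈ R, wt N (i + 1) (g c) = ∑ c ∈ R, wt N i (g c) := by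
      refine Finset.sum_congr rfl fun c _ => ?_
      unfold wt
      have h2 : min (i + 1) N - 1 - g c = min i N - 1 - g c := by
        rw [Nat.min_eq_right (by omega), Nat.min_eq_right (by omega)]
      rw [h2]
    have e4 : Wb N S (i + 1) = Wb N S i / 2 := by
      show (if i < N then 3 / 4 * Wb N S i + S / 2 else Wb N S i / 2) = _
      rw [if_neg hi]
    rw [e1, e4]
    linarith

end XWt

open XWt in
/-- Item [Wt] -/
theorem pr_Wt : S_Wt := by
  classical
  intro n N S i g Bk R hG hR
  have hsum := sum_le n N S i g Bk R hG hR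
  have hR' := hR
  unfold Rf at hR'
  rw [Finset.mem_filter, Finset.mem_powerset] at hR'
  obtain ⟨hRB, hlt, hw⟩ := hR'
  refine ⟨?_, fun R' hsub h2 => ?_⟩
  · have h1 : ((R ∪ Bk.filter (fun c => g c = i)).card : ℝ) ≤
        ∑ c ∈ R ∪ Bk.filter (fun c => g c = i), wt N (i + 1) (g c) := by
      have h3 : ((R ∪ Bk.filter (fun c => g c = i)).card : ℝ) =
          ∑ c ∈ R ∪ Bk.filter (fun c => g c = i), (1 : ℝ) := by
        rw [Finset.sum_const, nsmul_eq_mul, mul_one]
      rw [h3]
      exact Finset.sum_le_sum fun c _ => one_le_wt N (i + 1) (g c)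
    have h4 := (Wb_le N S (i + 1)).2
    have h5 : ((R ∪ Bk.filter (fun c => g c = i)).card : ℝ) ≤ ((4 * S : ℕ) : ℝ) := by
      push_cast
      linarith
    exact_mod_cast h5
  · unfold Rf
    rw [Finset.mem_filter, Finset.mem_powerset]
    refine ⟨fun c hc => ?_, fun c hc => ?_, ?_⟩
    · rcases Finset.mem_union.1 (hsub hc) with h | h
      · exact hRB h
      · exact (Finset.mem_filter.1 h).1
    · rcases Finset.mem_union.1 (hsub hc) with h | h
      · exact (hlt c h).trans (Nat.lt_succ_self i)
      · rw [(Finset.mem_filter.1 h).2]; exact Nat.lt_succ_self i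
    · linarith

end Pool.Agent.Work.MP_f7ef37_lc.HL
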