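import Pool.Agent.Work.MP_f7ef37_lc.HL.Small
import Pool.Agent.Work.MP_f7ef37_lc.HL.I_Ok
import Pool.Agent.Work.MP_f7ef37_lc.HL.I_Cx
import Pool.Agent.Work.MP_f7ef37_lc.HL.I_Cz
import Pool.Agent.Work.MP_f7ef37_lc.HL.I_Min
import Pool.Agent.Work.MP_f7ef37_lc.HL.I_Inc
import Pool.Agent.Work.MP_f7ef37_lc.HL.I_Wt
import Pool.Agent.Work.MP_f7ef37_lc.HL.I_We
import Pool.Agent.Work.MP_f7ef37_lc.HL.I_Stp
import Pool.Agent.Work.MP_f7ef37_lc.HL.I_Cnt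
import Pool.Agent.Work.MP_f7ef37_lc.HL.I_Chn
import Pool.Agent.Work.MP_f7ef37_lc.HL.I_MerG
import Pool.Agent.Work.MP_f7ef37_lc.HL.I_Lst
import Pool.Agent.Work.MP_f7ef37_lc.HL.I_Ls0
import Pool.Agent.Work.MP_f7ef37_lc.HL.I_Rec
import Pool.Agent.Work.MP_f7ef37_lc.HL.I_Tot
import Pool.Agent.Work.MP_f7ef37_lc.HL.I_Dt
import Pool.Agent.Work.MP_f7ef37_lc.HL.I_Nm
import Pool.Agent.Work.MP_f7ef37_lc.HL.I_Pr
import Pool.Agent.Work.MP_f7ef37_lc.HL.I_As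

/-!
# Block HL: the theorems
-/

set_option autoImplicit false

namespace Pool.Agent.Work.MP_f7ef37_lc.HL

open Pool.Agent.Work.MP_f7ef37_lc.Up

theorem hCx : S_Cx := pr_Cx pr_Ok

theorem hMin : S_Min := pr_Min (pr_Cz pr_Ok hCx)

theorem hStp : S_Stp := pr_Stp pr_Ok hMin pr_Inc pr_Wt

theorem hChn : S_Chn := pr_Chn hStp pr_Cnt pr_We

theorem hLst : S_Lst := pr_Lst pr_Ok pr_MerG

theorem hRec : S_Rec := pr_Rec hLst hChn

theorem hTot : S_Tot := pr_Tot hRec (pr_Ls0 pr_Ok) hChn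

/-- All `m ≥ n²`. -/
theorem allM (t n m : ℕ) (ht : 1 ≤ t) (hn : 16 ≤ n) (hm : n ^ 2 ≤ m) :
    HasRefutation t m n ((m : ℝ) ^ (36 * t) *
      Real.exp (64 * t * 2 ^ t * n * Real.log n ^ (t - 1) / Real.log m ^ t)) :=
  all_m hTot pr_Dt pr_Nm pr_Pr t n m ht hn hm

/-- The best `m`. -/
theorem bestM (t n : ℕ) (ht : 1 ≤ t) (hn : 2 ≤ n) : ∃ m : ℕ, n < m ∧
    HasRefutation t m n (Real.exp (172 * t * (n : ℝ) ^ (1 / ((t : ℝ) + 1)) *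
      Real.log n ^ (((t : ℝ) - 1) / (t + 1)))) := by
  by_cases h : 16 ≤ n
  · exact best_m hTot pr_Dt pr_Nm pr_Pr pr_As t n ht h
  · obtain ⟨m, h1, h2⟩ := explicit t n ht hn
    exact ⟨m, h1, HasRefutation_mono h2
      (Real.exp_le_exp.2 (small_bound t n ht hn (by omega)))⟩

end Pool.Agent.Work.MP_f7ef37_lc.HL
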