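import Pool.Agent.Work.MP_f7ef37_lc.HL.Asm

/-!
# Block HL: small n in the second part
-/

set_option autoImplicit false

namespace Pool.Agent.Work.MP_f7ef37_lc.HL

open Pool.Agent.Work.MP_f7ef37_lc.Up

theorem small_bound (t n : ℕ) (ht : 1 ≤ t) (hn : 2 ≤ n) (hn2 : n < 16) :
    80 * t * (n : ℝ) ^ (1 / ((t : ℝ) + 1)) * Real.log n ^ ((t : ℝ) / (t + 1)) ≤
      172 * t * (n : ℝ) ^ (1 / ((t : ℝ) + 1)) * Real.log n ^ (((t : ℝ) - 1) / (t + 1)) := by
  have hn' : (2 : ℝ) ≤ n := by exact_mod_cast hn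
  have hn'' : (n : ℝ) ≤ 16 := by exact_mod_cast hn2.le
  have ht' : (1 : ℝ) ≤ t := by exact_mod_cast ht
  have hx0 : 0 < Real.log n := Real.log_pos (by linarith)
  have hx4 : Real.log n ≤ 4 := by
    have h1 : Real.log n ≤ Real.log 16 := Real.log_le_log (by linarith) hn''
    have h2 : Real.log 16 = 4 * Real.log 2 := by
      rw [show (16 : ℝ) = 2 ^ 4 by norm_num, Real.log_pow]
      norm_num
    have := Real.log_two_lt_d9
    linarith
  have e1 : (t : ℝ) / (t + 1) = ((t : ℝ) - 1) / (t + 1) + 1 / (t + 1) := by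
    field_simp
    ring
  have h2 : Real.log n ^ (1 / ((t : ℝ) + 1)) ≤ 2 := by
    rcases le_total (Real.log n) 1 with h | h
    · exact (Real.rpow_le_one hx0.le h (by positivity)).trans (by norm_num)
    · calc Real.log n ^ (1 / ((t : ℝ) + 1)) ≤ Real.log n ^ (1 / (2 : ℝ)) := by
            refine Real.rpow_le_rpow_of_exponent_le h ?_
            exact one_div_le_one_div_of_le (by norm_num) (by linarith)
        _ ≤ (4 : ℝ) ^ (1 / (2 : ℝ)) := Real.rpow_le_rpow hx0.le hx4 (by norm_num)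
        _ = 2 := by
            rw [show (4 : ℝ) = 2 ^ (2 : ℝ) by norm_num, ← Real.rpow_mul (by norm_num)]
            norm_num
  rw [e1, Real.rpow_add hx0]
  set A : ℝ := Real.log n ^ (((t : ℝ) - 1) / (t + 1)) with hA
  set B : ℝ := (n : ℝ) ^ (1 / ((t : ℝ) + 1)) with hB
  have hA0 : 0 ≤ A := Real.rpow_nonneg hx0.le _
  have hB0 : 0 ≤ B := Real.rpow_nonneg (by linarith) _
  have h3 : 80 * Real.log n ^ (1 / ((t : ℝ) + 1)) ≤ 172 := by linarith
  have h4 : 0 ≤ (t : ℝ) * B * A := by positivity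
  nlinarith [mul_le_mul_of_nonneg_right h3 h4]

end Pool.Agent.Work.MP_f7ef37_lc.HL
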