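import Pool.Agent.Work.MP_f7ef37_lc.HL.Defs

/-!
# Block HL: statements of the items

Every docstring contains the complete proof. The landed theorems `Up.pr_Mono`, `Up.pr_Trans`,
`Up.pr_One`, `Up.pr_Fam pr_Mono pr_Trans`, `Up.pr_Repl pr_Mono pr_Trans pr_One`, `Up.pr_Conf`,
`Up.pr_Ext`, `Up.pr_Cut`, `Up.pr_Conv`, `Up.pr_Sz`, `Up.pr_NegsOk`, `Up.pr_ConfT`, `Up.pr_CnOk`,
`Up.hMer`, `Up.hStB` (files `Up/B1.lean`, `Up/B2.lean`, `Up/Main.lean`, imported here) may be used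
by every item. `U = U t m n ≥ 1`.
-/

set_option autoImplicit false

open Finset

namespace Pool.Agent.Work.MP_f7ef37_lc.HL

open Pool.Agent.Work.MP_f7ef37_lc.Up

/-- ITEM Ok (EASY). A term of `r + 1` reads is the image of `range (r + 1)`, so it has between `1` and
`r + 1 ≤ t` literals (`Up.CnOk_term`); then filter membership. -/
def S_Ok : Prop := ∀ (m n L t r i : ℕ) (D : Data m n L) (bit : Fin m → ℕ → Bool) (b : Bool)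
  (Z : Finset (Fin n)) (g : Fin n → ℕ) (Bk : Finset (Fin n)) (a : ℕ → Bool) (R : Finset (Fin n)),
  r + 1 ≤ t → Ok t (Eb D bit r i b Z) ∧ Ok t (Kk D bit r g Bk i a R)

/-- ITEM Cx (EASY-MEDIUM, copy of `Up.pr_Lf1`). `T = term D c p (r + 1)`, the last pigeon has the bit
`false`. From `G = Γ ∪ Eb true (insert c Y)` derive `H = (Γ ∪ Eb true Y) ∪ negs T` by `S_Repl` with
`B = Eb true {c}`, `k = 3`: every `T' ∈ B` is `term D c p' (r + 1)` with `bit (p' r) i = true`, so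
`p r ≠ p' r`. If `node D c p r = node D c p' r = y`, then `(p' r, y, true) ∈ T'` and
`{(p r, y, false)} ∈ negs T`. If these nodes are different, `S_ConfT` (for `k = r`) gives `a ≠ b`, `y`
with `(b, y, true) ∈ term D c p' r ⊆ T'` and `{(a, y, false)} ∈ negs (term D c p r) ⊆ negs T`. So
`S_Conf` replaces `T'` by `H`. The result `(G \ B) ∪ H` is contained in `H` (a term of `Eb true
(insert c Y)` which is not in `Eb true {c}` starts in `Y`), and contains it. Number of lines: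
`3 B.card + 1 ≤ 3 U + 1` (`S_Sz`, `S_Ok`). -/
def S_Cx : Prop := ∀ (m n L t r i : ℕ) (D : Data m n L) (bit : Fin m → ℕ → Bool) (Γ : Line m n)
  (Y : Finset (Fin n)) (c : Fin n) (p : ℕ → Fin m), r + 1 ≤ t → Ok t Γ → bit (p r) i = false →
  DS t {Γ ∪ Eb D bit r i true (insert c Y)}
    {(Γ ∪ Eb D bit r i true Y) ∪ negs (term D c p (r + 1))} (3 * U t m n + 1)

/-- ITEM Cz (EASY-MEDIUM, copy of `Up.pr_Lf2`). Let `E = Eb false (T \ Y)`. For every `T' ∈ E`,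
`T' = term D c p (r + 1)` with `c ∈ T \ Y`, derive `Γ ∪ Eb true Y ∪ negs T'` from the line of
`insert c Y` (`S_Cx`, at most `3 U + 1` lines each, `S_Fam`), then apply `S_Repl` to `G = Γ ∪ E`,
`B = E`, `H = Γ ∪ Eb true Y`, `k = 1` (`S_Cut` with `N = H ∪ negs T'`). The result `(G \ E) ∪ H` is `H`.
Number of lines at most `U (3 U + 1) + U + 1 ≤ 6 U ^ 2`. -/
def S_Cz : Prop := ∀ (m n L t r i : ℕ) (D : Data m n L) (bit : Fin m → ℕ → Bool) (Γ : Line m n)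
  (T Y : Finset (Fin n)), r + 1 ≤ t → Ok t Γ →
  DS t ({Γ ∪ Eb D bit r i false (T \ Y)} ∪
      {F | ∃ c ∈ T \ Y, F = Γ ∪ Eb D bit r i true (insert c Y)})
    {Γ ∪ Eb D bit r i true Y} (6 * U t m n ^ 2)

/-- ITEM Min (MEDIUM, compare `Up.Leaf_claim`, `Up.pr_Leaf`). THE WEIGHTED MINORITY LEMMA. Let `A` be
the set of the given lines, `F Y = Γ ∪ Eb true Y`, `V Z = ∑ c ∈ Z, v c`, `q = T.card`. Claim: for
`z ≤ q`: `DS t A {G | ∃ Y ∈ T.powersetCard z, G = F Y} ((q - z) * (2 ^ q * (6 U ^ 2)))`, by induction on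
`q - z`. For `z = q` only `Y = T`, and `F T` is the line of `A` for `b = true`, `R = ∅`
(`2 * 0 ≤ V T` as `v ≥ 0`). Step from `z + 1` to `z`: for every `Y ∈ T.powersetCard z` (at most `2 ^ q`
of them, `S_Fam`): if `2 V (T \ Y) ≤ V T` then `F Y` is the line of `A` for `b = true`, `R = T \ Y`
(`T \ (T \ Y) = Y`). Otherwise `2 V Y ≤ V T` (`V Y + V (T \ Y) = V T`), so the line of `A` for
`b = false`, `R = Y` and `S_Cz` give `F Y` from the lines `F (insert c Y)`, `c ∈ T \ Y`, which are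
derived already. For `z = 0`: `F ∅ = Γ` (`Eb true ∅ = ∅`). -/
def S_Min : Prop := ∀ (m n L t r i : ℕ) (D : Data m n L) (bit : Fin m → ℕ → Bool) (Γ : Line m n)
  (T : Finset (Fin n)) (v : Fin n → ℝ), r + 1 ≤ t → Ok t Γ → (∀ c, 0 ≤ v c) →
  DS t {F | ∃ (b : Bool) (R : Finset (Fin n)), R ⊆ T ∧ 2 * ∑ c ∈ R, v c ≤ ∑ c ∈ T, v c ∧
      F = Γ ∪ Eb D bit r i b (T \ R)}
    {Γ} ((T.card + 1) * (2 ^ T.card * (6 * U t m n ^ 2)))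

/-- ITEM Inc (EASY-MEDIUM). Let `T' ∈ Kk (i + 1) a' R'`, i.e. `T' = term D c p (r + 1)`, `c ∈ Bk \ R'`,
`g c < i + 1`, `bit (p r) l = a' l` for `g c ≤ l < i + 1`. If `c ∈ R` or `g c = i`, then `c` is in
`T = R ∪ {c ∈ Bk | g c = i}`, `c ∉ R'`, and `bit (p r) i = a' i = b`: so `T' ∈ Eb b (T \ R')`. If `c ∉ R`
and `g c < i`, then `bit (p r) l = a' l = a l` for `g c ≤ l < i`, so `T' ∈ Kk i a R`. -/
def S_Inc : Prop := ∀ (m n L r i : ℕ) (D : Data m n L) (bit : Fin m → ℕ → Bool) (g : Fin n → ℕ)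
  (Bk R R' : Finset (Fin n)) (a a' : ℕ → Bool), (∀ l, l < i → a' l = a l) →
  Kk D bit r g Bk (i + 1) a' R' ⊆
    Kk D bit r g Bk i a R ∪ Eb D bit r i (a' i) ((R ∪ Bk.filter (fun c => g c = i)) \ R')

/-- ITEM Wt (EASY-MEDIUM). The weights. (1) `1 ≤ wt`. (2) `Wb i ≤ 2 S` by induction. (3)
`Wb (N + j) ≤ 2 S / 2 ^ j` by induction on `j` (`N + j < N` is false), so it is `< 1` for `2 S < 2 ^ j`.
(4) Let `R ∈ Rf i`, `T = R ∪ {c ∈ Bk | g c = i}`, `v c = wt N (i + 1) (g c)`. The union is disjoint. If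
`i < N`: for `c ∈ R`, `g c < i`, `v c = (3/2) ^ (i - g c) = 3/2 * wt N i (g c)`; for `g c = i`,
`v c = 1`; so `V T ≤ 3/2 * Wb i + S = 2 * Wb (i + 1)`. If `i ≥ N`: no `c ∈ Bk` has `g c = i`, and
`v c = wt N i (g c)`, so `V T ≤ Wb i = 2 * Wb (i + 1)`. (5) As `wt ≥ 1` and `Wb (i + 1) ≤ 2 S`,
`T.card ≤ V T ≤ 4 S`. (6) If `R' ⊆ T` and `2 V R' ≤ V T` then `V R' ≤ Wb (i + 1)`, so `R' ∈ Rf (i + 1)`. -/
def S_Wt : Prop := ∀ (n N S i : ℕ) (g : Fin n → ℕ) (Bk R : Finset (Fin n)), Grp N S g Bk →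
  R ∈ Rf N S g Bk i →
  (R ∪ Bk.filter (fun c => g c = i)).card ≤ 4 * S ∧
  ∀ R', R' ⊆ R ∪ Bk.filter (fun c => g c = i) →
    2 * ∑ c ∈ R', wt N (i + 1) (g c) ≤
      ∑ c ∈ R ∪ Bk.filter (fun c => g c = i), wt N (i + 1) (g c) →
    R' ∈ Rf N S g Bk (i + 1)

/-- ITEM We (EASY, see (1), (3) of ITEM Wt). At the stage `N + j` only the empty set is allowed: a
nonempty `R` has weight `≥ 1 > Wb (N + j)`. At the stage `0` the empty set is allowed. -/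
def S_We : Prop := ∀ (n N S j : ℕ) (g : Fin n → ℕ) (Bk : Finset (Fin n)), 2 * S < 2 ^ j →
  (∀ R ∈ Rf N S g Bk (N + j), R = ∅) ∧ ∅ ∈ Rf N S g Bk 0

/-- ITEM Stp (MEDIUM). ONE STEP OF THE CHAIN. USES `S_Ok`, `S_Min`, `S_Inc`, `S_Wt`. Put
`Γ' = Γ ∪ Kk i a R` (it is `Ok t`), `T = R ∪ {c ∈ Bk | g c = i}`, `v c = wt N (i + 1) (g c)`. For every
`b` and `R' ⊆ T` with `2 V R' ≤ V T` the line `Γ' ∪ Eb b (T \ R')` follows by one weakening from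
`Γ ∪ Kk (i + 1) (update a i b) R'` (`S_Inc`, `S_Wt`): at most `2 * 2 ^ T.card ≤ 2 * 2 ^ (4 S)` lines
(`S_Fam` over `univ ×ˢ T.powerset` with the good pairs; `S_One`, `Step` by `G ⊆ F`). Then `S_Min` with
`T.card ≤ 4 S`. -/
def S_Stp : Prop := ∀ (m n L t r i N S : ℕ) (D : Data m n L) (bit : Fin m → ℕ → Bool) (Γ : Line m n)
  (g : Fin n → ℕ) (Bk R : Finset (Fin n)) (a : ℕ → Bool), r + 1 ≤ t → Ok t Γ → Grp N S g Bk →
  R ∈ Rf N S g Bk i →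
  DS t {F | ∃ (b : Bool) (R' : Finset (Fin n)), R' ∈ Rf N S g Bk (i + 1) ∧
      F = Γ ∪ Kk D bit r g Bk (i + 1) (Function.update a i b) R'}
    {Γ ∪ Kk D bit r g Bk i a R} (CS t m n S)

/-- ITEM Cnt (MEDIUM). THE NUMBER OF EXCEPTIONAL SETS. Let `i' = min i N`. For `R ∈ Rf i` we have
`V R = ∑ c ∈ R, wt N i (g c) ≤ Wb i ≤ 2 S`, so `1 ≤ 2 ^ (2 S) * ∏ c ∈ R, (2 : ℝ) ^ (- wt N i (g c))`. Sum
over all `R ⊆ Z = {c ∈ Bk | g c < i}` (`Finset.prod_one_add` or `Finset.prod_add_one`):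
`card ≤ 2 ^ (2 S) ∏ c ∈ Z (1 + 2 ^ (-wt)) ≤ 2 ^ (2 S) exp (∑ c ∈ Z, 2 ^ (-wt))`. By Bernoulli
(`one_add_mul_le_pow`) `(3/2) ^ a ≥ 1 + a/2`, so `2 ^ (-(3/2)^a) ≤ (1/2) * x ^ a` with
`x = 2 ^ (-1/2) ≤ 0.7072`. For `c ∈ Z`, `g c < i'` and the exponent is `a = i' - 1 - g c`. Every group
has at most `S` elements, so the sum is at most `S * ∑ a < i', (1/2) x ^ a ≤ S * (1/2)/(1 - x) ≤
1.71 S ≤ 3 S log 2`. Total `≤ 2 ^ (2 S) * 2 ^ (3 S)`. -/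
def S_Cnt : Prop := ∀ (n N S i : ℕ) (g : Fin n → ℕ) (Bk : Finset (Fin n)), Grp N S g Bk →
  (Rf N S g Bk i).card ≤ 2 ^ (5 * S)

/-- ITEM Chn (MEDIUM). THE CHAIN. USES `S_Stp`, `S_Cnt`, `S_We`. Let `A` be the set of the given lines
(stage `k = N + j`). Claim: for `i ≤ k`,
`DS t A {F | ∃ a : Fin k → Bool, ∃ R ∈ Rf i, F = Γ ∪ Kk i (ex a) R} ((k - i) * (2 ^ k * 2 ^ (5 S) * CS))`
by induction on `k - i`. `i = k`: `R = ∅` (`S_We`), these lines are in `A`. Step from `i + 1` to `i`: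
`S_Fam` over `univ ×ˢ Rf i` (at most `2 ^ k * 2 ^ (5 S)` pairs), for every pair `S_Stp`;
`Function.update (ex a) i b = ex (Function.update a ⟨i, _⟩ b)`. At `i = 0` take `R = ∅`:
`Kk 0 a ∅ = ∅`, so the line is `Γ`. -/
def S_Chn : Prop := ∀ (m n L t r N S j : ℕ) (D : Data m n L) (bit : Fin m → ℕ → Bool) (Γ : Line m n)
  (g : Fin n → ℕ) (Bk : Finset (Fin n)), r + 1 ≤ t → Ok t Γ → Grp N S g Bk → 2 * S < 2 ^ j →
  DS t {F | ∃ a : Fin (N + j) → Bool, F = Γ ∪ Kk D bit r g Bk (N + j) (ex a) ∅} {Γ}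
    (CC t m n (N + j) S)

/-- ITEM MerG (EASY-MEDIUM, copy of `Up.pr_Mer` with a general line `Z`). The only property of
`Z = Ctx ..` used in `Up.pr_Mer` is: `Z` is `Ok t`, `Γ ⊆ Z` and `T ∪ {(P, x, true)} ∈ Z` for all `x` and
`T ∈ Cn D k w x`. -/
def S_MerG : Prop := ∀ (m n L t k : ℕ) (D : Data m n L) (w : ℕ → Fin L) (Γ Z : Line m n) (P : Fin m),
  2 ≤ n → 1 ≤ k → k + 1 ≤ t → Ok t Γ → Ok t Z → Γ ⊆ Z →
  (∀ (x : Fin n), ∀ T ∈ Cn D k w x, T ∪ {(P, x, true)} ∈ Z) →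
  DS t {F | ∃ x : Fin n, F = Γ ∪ Cn D k w x} {Z} (5 * n * U t m n)

/-- ITEM Lst (MEDIUM). THE LAST READ, `r ≥ 1`. USES `S_MerG`, `S_Ok`. For one `a`: `P = be (ex a)`,
`Z = Γ ∪ Kk (ex a) ∅` at the stage `k`. If `T = term D c p r ∈ Cn D r w x`, `c ∈ Bk`,
`node D c p r = x`, then with `p' = Function.update p r P` one has
`term D c p' (r + 1) = T ∪ {(P, x, true)}` (`Up.ExtT_node` and the proof of `Up.pr_ExtT`), `g c < N ≤ k`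
and `bit P l = ex a l` for `l < k`: so it is in `Kk (ex a) ∅`. `S_MerG` gives the line with
`5 n U` lines; `S_Fam` over all `a : Fin k → Bool`. -/
def S_Lst : Prop := ∀ (m n L t r N S k : ℕ) (D : Data m n L) (bit : Fin m → ℕ → Bool)
  (be : (ℕ → Bool) → Fin m) (Γ : Line m n) (w : ℕ → Fin L) (g : Fin n → ℕ) (Bk : Finset (Fin n)),
  2 ≤ n → 1 ≤ r → r + 1 ≤ t → Ok t Γ → Grp N S g Bk → N ≤ k → Bits m k bit be →
  (∀ c, c ∈ Bk ↔ InB D r w c) →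
  DS t {F | ∃ x : Fin n, F = Γ ∪ Cn D r w x}
    {F | ∃ a : Fin k → Bool, F = Γ ∪ Kk D bit r g Bk k (ex a) ∅} (2 ^ k * (5 * n * U t m n))

/-- ITEM Ls0 (EASY-MEDIUM, compare `Up.pr_Top`). THE LAST READ, `r = 0`, `Bk = univ`. For every `a` the
pigeon axiom of `be (ex a)` is contained in `Kk (ex a) ∅` at the stage `k`: the term
`{(P, c, true)} = term D c (fun _ => P) 1`. So two lines (axiom, weakening) for each of the `2 ^ k` `a`. -/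
def S_Ls0 : Prop := ∀ (m n L t N S k : ℕ) (D : Data m n L) (bit : Fin m → ℕ → Bool)
  (be : (ℕ → Bool) → Fin m) (g : Fin n → ℕ), 1 ≤ t → Grp N S g (univ : Finset (Fin n)) → N ≤ k →
  Bits m k bit be →
  DS t ∅ {F | ∃ a : Fin k → Bool, F = ∅ ∪ Kk D bit 0 g univ k (ex a) ∅} (2 ^ k * 2)

/-- ITEM Rec (EASY-MEDIUM, copy of `Up.pr_Rec`). USES `S_Lst`, `S_Chn`; `Up.hMer`, `Up.hStB`. Induction
on `j'`, level `t - 1 - j' ≥ 1`. `j' = 0`: `S_Lst` (with `k = N + j`), then `S_Chn`; `S_Trans`, `S_Mono`.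
Step: `S_Mer` for all `X : Fin L → Fin n` (`S_Fam`, `n ^ L` of them), then `S_StB`. -/
def S_Rec : Prop := ∀ (m n L t N S j j' : ℕ) (D : Data m n L) (bit : Fin m → ℕ → Bool)
  (be : (ℕ → Bool) → Fin m), 2 ≤ n → j' + 1 < t → 2 * S < 2 ^ j → Bits m (N + j) bit be →
  (∀ w : ℕ → Fin L, ∃ (Bk : Finset (Fin n)) (g : Fin n → ℕ),
    (∀ c, c ∈ Bk ↔ InB D (t - 1) w c) ∧ Grp N S g Bk) →
  ∀ (Γ : Line m n) (w : ℕ → Fin L), Ok t Γ →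
    DS t {F | ∃ x : Fin n, F = Γ ∪ Cn D (t - 1 - j') w x} {Γ} (NT t m n L (N + j) S j')

/-- ITEM Tot (EASY-MEDIUM, copy of `Up.pr_Tot`). USES `S_Rec`, `S_Ls0`, `S_Chn`. For `t ≥ 2`: `Up.S_Top`
for all `X` (`S_Fam`), then `Up.hStB` with `k = 0`, `Γ = ∅`, `N = NT .. (t - 2)` (`S_Rec` with
`j' = t - 2`, level `1`). For `t = 1`: the block of level `0` is `univ`; `S_Ls0` and `S_Chn` with
`Γ = ∅`, `r = 0`. (If `Fin L` is empty there is no `w`; but `D.dig` gives an element since `n ≥ 2`.) -/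
def S_Tot : Prop := ∀ (m n L t N S j : ℕ) (D : Data m n L) (bit : Fin m → ℕ → Bool)
  (be : (ℕ → Bool) → Fin m), 2 ≤ n → 1 ≤ t → 2 * S < 2 ^ j → Bits m (N + j) bit be →
  (∀ w : ℕ → Fin L, ∃ (Bk : Finset (Fin n)) (g : Fin n → ℕ),
    (∀ c, c ∈ Bk ↔ InB D (t - 1) w c) ∧ Grp N S g Bk) →
    DS t (∅ : Set (Line m n)) {∅}
      (2 * n ^ L + L * (n ^ L * NT t m n L (N + j) S (t - 2)) +
        (2 ^ (N + j) * 2 + CC t m n (N + j) S))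

/-- ITEM Dt (EASY-MEDIUM). `Up.pr_Dat` (with `t - 1` and `s = N * S`) gives `D` and the blocks with at
most `N * S` holes. Groups: enumerate `Bk` (`Finset.equivFin`), `g c = index / S` (for `S = 0` the block
is empty), the fibres have at most `S` elements, `index < N * S` gives `g c < N`. Bits: an injection
`(Fin k → Bool) → Fin m` exists as `2 ^ k ≤ m`; `be a` = image of the restriction, `bit` through a left
inverse (`Function.invFun`, extended by `false`). -/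
def S_Dt : Prop := ∀ (m n L t N S k : ℕ), 1 ≤ t → 1 ≤ n → 1 ≤ L → n ^ L ≤ m → 2 ^ k ≤ m →
  n ≤ L ^ (t - 1) * (N * S) → ∃ (D : Data m n L) (bit : Fin m → ℕ → Bool) (be : (ℕ → Bool) → Fin m),
    Bits m k bit be ∧ ∀ w : ℕ → Fin L, ∃ (Bk : Finset (Fin n)) (g : Fin n → ℕ),
      (∀ c, c ∈ Bk ↔ InB D (t - 1) w c) ∧ Grp N S g Bk

/-- ITEM Nm (MEDIUM, arithmetic; compare `Up.pr_Num`). Put `q = 2 ^ S ≥ 2` (`S ≥ 1` since `n ≥ 2`),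
`U ≤ (3 m²)^t ≤ m ^ (4 t)` (`n ≤ m`, `m ≥ 2`), `k = N + j`, `2 ^ k ≤ m`, `k ≤ m`, `n ^ L ≤ m`, `L ≤ m`.
`4 S + 1 ≤ 5 q`, `CS ≤ q ^ 4 (2 + 5 q * 6 U²) ≤ 32 q ^ 5 U²`, `CC ≤ m * m * q ^ 5 * 32 q ^ 5 U² =
32 m² q ^ 10 U²`, `NT 0 ≤ 5 m² U + CC ≤ 37 m² q ^ 10 U²`, `NT (j + 1) ≤ 5 m² U + m² NT j`, so
`NT j ≤ 42 (j + 1) m ^ (2 j + 2) q ^ 10 U²`. Total number of lines
`≤ 2 m + m² NT (t - 2) + 2 m + 32 m² q ^ 10 U² ≤ 80 (t + 1) m ^ (2 t + 2) q ^ 10 U²`; times `t U` it is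
at most `160 t² m ^ (2 t + 2) q ^ 10 m ^ (12 t)`, and `160 t² ≤ 256 * 4 ^ t ≤ (m q) ^ (4 + t)`. The sum of
the exponents is at most `2 t + 2 + 10 + 12 t + 4 + t ≤ 32 t` (`m q ≥ 4`). -/
def S_Nm : Prop := ∀ (m n L t N S j : ℕ), 1 ≤ t → 2 ≤ n → 1 ≤ L → n ^ L ≤ m → 2 ^ (N + j) ≤ m →
  n ≤ L ^ (t - 1) * (N * S) →
  (2 * n ^ L + L * (n ^ L * NT t m n L (N + j) S (t - 2)) +
    (2 ^ (N + j) * 2 + CC t m n (N + j) S)) * (t * U t m n) ≤ (m * 2 ^ S) ^ (32 * t)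

/-- ITEM Pr (MEDIUM, arithmetic). Choice of the parameters for `n ≥ 16`, `m ≥ n²` (so `m ≥ 256`):
`L = Nat.log n m ≥ 2` (`n ^ L ≤ m < n ^ (L + 1)`), `M' = Nat.log 2 m ≥ 8`, `N = M' / 4 ≥ 2`,
`S = n / (L ^ (t - 1) * N) + 1`, `j = Nat.log 2 (2 * S) + 1`. Then `n ≤ L ^ (t - 1) * (N * S)`,
`2 S < 2 ^ j ≤ 4 S ≤ 4 n` (`S ≤ n / 2 + 1 ≤ n`), and `2 ^ (N + j) ≤ 2 ^ N * 4 n` with
`(2 ^ N) ^ 4 ≤ m`, `n ^ 2 ≤ m`: `(2 ^ N * 4 n) ^ 4 ≤ m * 256 * m ^ 2 ≤ m ^ 4`. Bound (`log` natural,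
`l = log n`, `λ = log m ≥ 2 l`): `L + 1 > λ / l` and `L ≥ 2`, so `L ≥ (2/3) λ / l ≥ λ / (2 l)`;
`M' + 1 > λ / log 2`, `M' ≥ 8`, so `M' ≥ (8/9) λ / log 2`, `N ≥ M' / 4 - 3/4` and `N ≥ 2` give
`N ≥ (2/3) * (M' / 4) * ..`: precisely `N + 1 > M' / 4`, so `N ≥ (2/3) (M' / 4)`, so
`N ≥ (4/27) λ / log 2 ≥ λ / (8 log 2)`. Hence
`S ≤ 1 + n / (L ^ (t - 1) N) ≤ 1 + n (2 l / λ) ^ (t - 1) (8 log 2 / λ) =
1 + 4 log 2 * 2 ^ t n l ^ (t - 1) / λ ^ t`, and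
`2 ^ (32 t S) = exp (32 t S log 2) ≤ 2 ^ (32 t) exp (128 (log 2)² t 2 ^ t n l ^ (t - 1) / λ ^ t)`,
`128 (log 2)² ≤ 64`, `2 ^ (32 t) ≤ m ^ (4 t)` as `2 ^ 8 ≤ m`. -/
def S_Pr : Prop := ∀ (t n m : ℕ), 1 ≤ t → 16 ≤ n → n ^ 2 ≤ m →
  ∃ L N S j : ℕ, 1 ≤ L ∧ n ^ L ≤ m ∧ 2 ^ (N + j) ≤ m ∧ 2 * S < 2 ^ j ∧
    n ≤ L ^ (t - 1) * (N * S) ∧
    (((m * 2 ^ S) ^ (32 * t) : ℕ) : ℝ) ≤ (m : ℝ) ^ (36 * t) *
      Real.exp (64 * t * 2 ^ t * n * Real.log n ^ (t - 1) / Real.log m ^ t)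

/-- ITEM As (MEDIUM, analysis). The best `m`. Let `l = log n ≥ 1`,
`y = n ^ (1 / (t + 1)) * l ^ ((t - 1) / (t + 1))`, so `y ^ (t + 1) = n l ^ (t - 1)`. As `n ≥ l²`
(`exp l ≥ l²`), `y ^ (t + 1) ≥ l ^ (t + 1)`, so `y ≥ l`. Put `m = ⌈exp (2 y)⌉₊`. `m ≥ exp (2 l) = n²`, and
`m ≤ exp (2 y) + 1 ≤ exp (3 y)` (`y ≥ 1`), `2 y ≤ log m ≤ 3 y`. So `m ^ (36 t) ≤ exp (108 t y)` and
`64 t 2 ^ t n l ^ (t - 1) / (log m) ^ t ≤ 64 t 2 ^ t y ^ (t + 1) / (2 y) ^ t = 64 t y`. The sum is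
`172 t y`. -/
def S_As : Prop := ∀ (t n : ℕ), 1 ≤ t → 16 ≤ n → ∃ m : ℕ, n < m ∧ n ^ 2 ≤ m ∧
  (m : ℝ) ^ (36 * t) *
      Real.exp (64 * t * 2 ^ t * n * Real.log n ^ (t - 1) / Real.log m ^ t) ≤
    Real.exp (172 * t * (n : ℝ) ^ (1 / ((t : ℝ) + 1)) *
      Real.log n ^ (((t : ℝ) - 1) / (t + 1)))

end Pool.Agent.Work.MP_f7ef37_lc.HL
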